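import Mathlib

/-!
# Tropical Laurent polynomials: orbits and exceptional null sets
-/

set_option autoImplicit false

open Filter Topology MeasureTheory Set

set_option linter.unusedSectionVars false

namespace Pool.Agent.K3h63.LT

variable {ι : Type*} [Fintype ι] [Nonempty ι] (e : ι → ℤ)

/-- the tropical Laurent polynomial `x ↦ max (α i + e i x)` -/
noncomputable def F (α : ι → ℝ) (x : ℝ) : ℝ :=
  Finset.univ.sup' Finset.univ_nonempty (fun i => α i + (e i : ℝ) * x)

/-- the point where the lines of index `i` and `j` meet -/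
noncomputable def xx (i j : ι) (α : ι → ℝ) : ℝ := (α i - α j) / ((e j : ℝ) - (e i : ℝ))

variable {e}

lemma le_F (α : ι → ℝ) (x : ℝ) (i : ι) : α i + (e i : ℝ) * x ≤ F e α x :=
  Finset.le_sup' (fun i => α i + (e i : ℝ) * x) (Finset.mem_univ i)

lemma exists_eq_F (α : ι → ℝ) (x : ℝ) : ∃ i, F e α x = α i + (e i : ℝ) * x := by
  obtain ⟨i, -, h⟩ := Finset.exists_mem_eq_sup' (s := (Finset.univ : Finset ι))
    Finset.univ_nonempty (fun i => α i + (e i : ℝ) * x)
  exact ⟨i, h⟩

lemma F_lt {α : ι → ℝ} {x c : ℝ} (h : ∀ i, α i + (e i : ℝ) * x < c) : F e α x < c := by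
  obtain ⟨i, hi⟩ := exists_eq_F (e := e) α x
  rw [hi]; exact h i

lemma F_le {α : ι → ℝ} {x c : ℝ} (h : ∀ i, α i + (e i : ℝ) * x ≤ c) : F e α x ≤ c := by
  obtain ⟨i, hi⟩ := exists_eq_F (e := e) α x
  rw [hi]; exact h i

lemma F_shift (α : ι → ℝ) (x s : ℝ) : F e (fun i => α i + s) x = F e α x + s := by
  apply le_antisymm
  · refine F_le fun i => ?_
    have := le_F (e := e) α x i
    linarith
  · obtain ⟨i, hi⟩ := exists_eq_F (e := e) α x
    have := le_F (e := e) (fun i => α i + s) x i
    rw [hi]
    linarith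

lemma continuous_F : Continuous (fun p : (ι → ℝ) × ℝ => F e p.1 p.2) := by
  unfold F
  apply Continuous.finset_sup'_apply
  intro i _
  fun_prop

lemma continuous_orbit {Y : (ι → ℝ) → ℝ} (hY : Continuous Y) (m : ℕ) :
    Continuous (fun α => (F e α)^[m] (Y α)) := by
  induction m with
  | zero => simpa using hY
  | succ m ih =>
    simp only [Function.iterate_succ_apply']
    exact continuous_F.comp (continuous_id.prodMk ih)

lemma continuous_xx (i j : ι) : Continuous (xx e i j) := by
  unfold xx
  fun_prop

lemma xx_shift (i j : ι) (α : ι → ℝ) (s : ℝ) : xx e i j (fun k => α k + s) = xx e i j α := by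
  unfold xx; congr 1; ring

/-- a start value moves at unit speed with the coefficients -/
def IsStart (Y : (ι → ℝ) → ℝ) : Prop :=
  Continuous Y ∧ ∀ (α : ι → ℝ) (s : ℝ), Y (fun k => α k + s) = Y α + s

lemma isStart_coeff (i : ι) : IsStart (fun α : ι → ℝ => α i) :=
  ⟨continuous_apply i, fun _ _ => rfl⟩

lemma isStart_crit (i j : ι) : IsStart (fun α : ι → ℝ => F e α (xx e i j α)) := by
  refine ⟨continuous_F.comp (continuous_id.prodMk (continuous_xx i j)), fun α s => ?_⟩
  simp only [xx_shift, F_shift]

/-! ### germs -/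

lemma germ_right (α : ι → ℝ) (x : ℝ) : ∃ i, F e α x = α i + (e i : ℝ) * x ∧
    ∀ᶠ y in 𝓝[>] x, F e α y = α i + (e i : ℝ) * y := by
  classical
  set S : Finset ι := Finset.univ.filter fun i => F e α x = α i + (e i : ℝ) * x with hS
  have hne : S.Nonempty := by
    obtain ⟨i, hi⟩ := exists_eq_F (e := e) α x
    exact ⟨i, by simp [hS, hi]⟩
  obtain ⟨i, hi, hmax⟩ := Finset.exists_max_image S e hne
  rw [hS, Finset.mem_filter] at hi
  refine ⟨i, hi.2, ?_⟩
  have h1 : ∀ k, ∀ᶠ y in 𝓝[>] x, α k + (e k : ℝ) * y ≤ α i + (e i : ℝ) * y := by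
    intro k
    by_cases hk : k ∈ S
    · have h2 : (e k : ℝ) ≤ e i := by exact_mod_cast hmax k hk
      rw [hS, Finset.mem_filter] at hk
      filter_upwards [self_mem_nhdsWithin] with y hy
      have hy' : x < y := hy
      have h3 := hk.2.symm.trans hi.2
      nlinarith
    · have h2 : α k + (e k : ℝ) * x < α i + (e i : ℝ) * x := by
        rw [← hi.2]
        refine lt_of_le_of_ne (le_F α x k) fun h => hk ?_
        simp [hS, h]
      have h3 : ∀ᶠ y in 𝓝 x, α k + (e k : ℝ) * y < α i + (e i : ℝ) * y := by
        apply ContinuousAt.eventually_lt _ _ h2 <;> fun_prop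
      exact (h3.filter_mono nhdsWithin_le_nhds).mono fun y hy => hy.le
  filter_upwards [(eventually_all).2 h1] with y hy
  exact le_antisymm (F_le hy) (le_F α y i)

lemma germ_left (α : ι → ℝ) (x : ℝ) : ∃ i, F e α x = α i + (e i : ℝ) * x ∧
    ∀ᶠ y in 𝓝[<] x, F e α y = α i + (e i : ℝ) * y := by
  classical
  set S : Finset ι := Finset.univ.filter fun i => F e α x = α i + (e i : ℝ) * x with hS
  have hne : S.Nonempty := by
    obtain ⟨i, hi⟩ := exists_eq_F (e := e) α x
    exact ⟨i, by simp [hS, hi]⟩
  obtain ⟨i, hi, hmin⟩ := Finset.exists_min_image S e hne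
  rw [hS, Finset.mem_filter] at hi
  refine ⟨i, hi.2, ?_⟩
  have h1 : ∀ k, ∀ᶠ y in 𝓝[<] x, α k + (e k : ℝ) * y ≤ α i + (e i : ℝ) * y := by
    intro k
    by_cases hk : k ∈ S
    · have h2 : (e i : ℝ) ≤ e k := by exact_mod_cast hmin k hk
      rw [hS, Finset.mem_filter] at hk
      filter_upwards [self_mem_nhdsWithin] with y hy
      have hy' : y < x := hy
      have h3 := hk.2.symm.trans hi.2
      nlinarith
    · have h2 : α k + (e k : ℝ) * x < α i + (e i : ℝ) * x := by
        rw [← hi.2]
        refine lt_of_le_of_ne (le_F α x k) fun h => hk ?_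
        simp [hS, h]
      have h3 : ∀ᶠ y in 𝓝 x, α k + (e k : ℝ) * y < α i + (e i : ℝ) * y := by
        apply ContinuousAt.eventually_lt _ _ h2 <;> fun_prop
      exact (h3.filter_mono nhdsWithin_le_nhds).mono fun y hy => hy.le
  filter_upwards [(eventually_all).2 h1] with y hy
  exact le_antisymm (F_le hy) (le_F α y i)

/-- the orbit of a start value moves with a nonzero integer speed -/
lemma germ_orbit {Y : (ι → ℝ) → ℝ} (hY : IsStart Y) (α : ι → ℝ) (m : ℕ)
    (h : ∀ t < m, ∀ i, F e α ((F e α)^[t] (Y α)) = α i + (e i : ℝ) * (F e α)^[t] (Y α) →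
      e i ≠ 1 ∧ e i ≠ -1) :
    ∃ w : ℤ, w ≠ 0 ∧ ∀ᶠ s in 𝓝[>] (0 : ℝ),
      (F e (fun k => α k + s))^[m] (Y (fun k => α k + s)) = (F e α)^[m] (Y α) + w * s := by
  induction m with
  | zero =>
    refine ⟨1, one_ne_zero, Eventually.of_forall fun s => ?_⟩
    simp [hY.2]
  | succ m ih =>
    obtain ⟨w, hw, hev⟩ := ih fun t ht => h t (by omega)
    set x := (F e α)^[m] (Y α) with hx
    -- the germ of `F` in the direction of the motion
    obtain ⟨i, hi, hev2⟩ : ∃ i, F e α x = α i + (e i : ℝ) * x ∧
        ∀ᶠ s in 𝓝[>] (0 : ℝ), F e α (x + w * s) = α i + (e i : ℝ) * (x + w * s) := by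
      rcases lt_or_gt_of_ne hw with hw' | hw'
      · obtain ⟨i, hi, hev2⟩ := germ_left (e := e) α x
        refine ⟨i, hi, ?_⟩
        have ht : Tendsto (fun s : ℝ => x + w * s) (𝓝[>] (0 : ℝ)) (𝓝[<] x) := by
          apply tendsto_nhdsWithin_of_tendsto_nhds_of_eventually_within
          · have : Tendsto (fun s : ℝ => x + w * s) (𝓝 (0 : ℝ)) (𝓝 (x + w * 0)) := by
              apply Continuous.tendsto; fun_prop
            rw [mul_zero, add_zero] at this
            exact this.mono_left nhdsWithin_le_nhds
          · filter_upwards [self_mem_nhdsWithin] with s hs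
            have hs' : (0 : ℝ) < s := hs
            have : (w : ℝ) < 0 := by exact_mod_cast hw'
            show x + w * s < x
            nlinarith
        exact ht.eventually hev2
      · obtain ⟨i, hi, hev2⟩ := germ_right (e := e) α x
        refine ⟨i, hi, ?_⟩
        have ht : Tendsto (fun s : ℝ => x + w * s) (𝓝[>] (0 : ℝ)) (𝓝[>] x) := by
          apply tendsto_nhdsWithin_of_tendsto_nhds_of_eventually_within
          · have : Tendsto (fun s : ℝ => x + w * s) (𝓝 (0 : ℝ)) (𝓝 (x + w * 0)) := by
              apply Continuous.tendsto; fun_prop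
            rw [mul_zero, add_zero] at this
            exact this.mono_left nhdsWithin_le_nhds
          · filter_upwards [self_mem_nhdsWithin] with s hs
            have hs' : (0 : ℝ) < s := hs
            have : (0 : ℝ) < w := by exact_mod_cast hw'
            show x < x + w * s
            nlinarith
        exact ht.eventually hev2
    have hne := h m (by omega) i hi
    refine ⟨e i * w + 1, ?_, ?_⟩
    · intro h0
      have h1 : e i * w = -1 := by omega
      have h2 : e i * (-w) = 1 := by rw [mul_neg, h1]; rfl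
      rcases Int.eq_one_or_neg_one_of_mul_eq_one h2 with h3 | h3
      · exact hne.1 h3
      · exact hne.2 h3
    · filter_upwards [hev, hev2] with s h1 h2
      rw [Function.iterate_succ_apply', Function.iterate_succ_apply', h1, F_shift, h2, ← hx, hi]
      push_cast
      ring

/-- three lines do not meet in a point, generically -/
lemma null_of_translate {Z : Set (ι → ℝ)} (hZ : MeasurableSet Z) (v : ι → ℝ)
    (h : ∀ α : ι → ℝ, ∀ᵐ s : ℝ, α + s • v ∉ Z) : ∀ᵐ α : ι → ℝ, α ∉ Z := by
  have := ae_mem_of_ae_add_linearMap_mem (LinearMap.toSpanSingleton ℝ (ι → ℝ) v) volume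
    (volume : Measure (ι → ℝ)) (s := Zᶜ) hZ.compl (fun y => by simpa using h y)
  simpa using this

lemma ae_collinear (i j k : ι) (hjk : e j ≠ e k) (hij : i ≠ j) (hik : i ≠ k) :
    ∀ᵐ α : ι → ℝ, α i * ((e j : ℝ) - e k) + α j * ((e k : ℝ) - e i) +
      α k * ((e i : ℝ) - e j) ≠ 0 := by
  classical
  have key := null_of_translate (Z := {α : ι → ℝ | α i * ((e j : ℝ) - e k) +
      α j * ((e k : ℝ) - e i) + α k * ((e i : ℝ) - e j) = 0}) (v := Pi.single i 1) ?_ ?_
  · filter_upwards [key] with α hα h
    exact hα h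
  · apply IsClosed.measurableSet
    apply isClosed_eq <;> fun_prop
  · intro α
    have hne : (e j : ℝ) - e k ≠ 0 := by
      rw [sub_ne_zero]
      exact_mod_cast hjk
    have hsub : {s : ℝ | α + s • (Pi.single i 1 : ι → ℝ) ∈ {α : ι → ℝ | α i * ((e j : ℝ) - e k) +
      α j * ((e k : ℝ) - e i) + α k * ((e i : ℝ) - e j) = 0}}.Subsingleton := by
      intro s hs s' hs'
      simp only [Set.mem_ofPred_eq, Pi.add_apply, Pi.smul_apply, smul_eq_mul, Pi.single_eq_same,
        Pi.single_eq_of_ne hij.symm, Pi.single_eq_of_ne hik.symm, mul_one, mul_zero,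
        add_zero] at hs hs'
      have h1 : (s - s') * ((e j : ℝ) - e k) = 0 := by linarith
      rcases mul_eq_zero.1 h1 with h2 | h2
      · linarith
      · exact absurd h2 hne
    exact hsub.countable.ae_notMem volume

/-- the coincidence sets are null sets -/
lemma ae_orbit {Y : (ι → ℝ) → ℝ} (hY : IsStart Y) (m : ℕ) (i j : ι) :
    ∀ᵐ α : ι → ℝ, (∀ t < m, ∀ k, (e k = 1 ∨ e k = -1) →
      α k + (e k : ℝ) * (F e α)^[t] (Y α) < F e α ((F e α)^[t] (Y α))) →
        (F e α)^[m] (Y α) ≠ xx e i j α := by
  classical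
  set Z : Set (ι → ℝ) := {α | (F e α)^[m] (Y α) = xx e i j α} ∩
    ⋂ t : Fin m, ⋂ k : ι, {α | (e k = 1 ∨ e k = -1) →
      α k + (e k : ℝ) * (F e α)^[(t : ℕ)] (Y α) < F e α ((F e α)^[(t : ℕ)] (Y α))} with hZ
  have hZm : MeasurableSet Z := by
    apply MeasurableSet.inter
    · exact (isClosed_eq (continuous_orbit hY.1 m) (continuous_xx i j)).measurableSet
    · refine MeasurableSet.iInter fun t => MeasurableSet.iInter fun k => ?_
      by_cases hk : e k = 1 ∨ e k = -1
      · simp only [hk, true_imp_iff]
        apply IsOpen.measurableSet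
        apply isOpen_lt
        · have := continuous_orbit (e := e) hY.1 (t : ℕ)
          fun_prop
        · exact continuous_F.comp (continuous_id.prodMk (continuous_orbit hY.1 (t : ℕ)))
      · have : {α : ι → ℝ | (e k = 1 ∨ e k = -1) →
            α k + (e k : ℝ) * (F e α)^[(t : ℕ)] (Y α) < F e α ((F e α)^[(t : ℕ)] (Y α))} = univ := by
          ext α
          simp [hk]
        rw [this]
        exact MeasurableSet.univ
  have key := null_of_translate (Z := Z) (v := fun _ => 1) hZm ?_
  · filter_upwards [key] with α hα h1 h2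
    apply hα
    rw [hZ]
    refine ⟨h2, ?_⟩
    simp only [Set.mem_iInter, Set.mem_ofPred_eq]
    exact fun t k hk => h1 t t.2 k hk
  · intro α
    have e1 : ∀ s : ℝ, α + s • (fun _ : ι => (1 : ℝ)) = fun k => α k + s := by
      intro s
      funext k
      simp
    have hc : {s : ℝ | α + s • (fun _ : ι => (1 : ℝ)) ∈ Z}.Countable := by
      set T : Set ℝ := {s : ℝ | α + s • (fun _ : ι => (1 : ℝ)) ∈ Z} with hT
      have hall : T ⊆ {x ∈ T | 𝓝[T ∩ Ioi x] x = ⊥} := by
        intro s hs
        refine ⟨hs, ?_⟩
        have hs' : (fun k => α k + s) ∈ Z := by rw [← e1]; exact hs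
        have h2 : ∀ t < m, ∀ k, (e k = 1 ∨ e k = -1) → (α k + s) +
            (e k : ℝ) * (F e (fun k => α k + s))^[t] (Y (fun k => α k + s)) <
              F e (fun k => α k + s) ((F e (fun k => α k + s))^[t] (Y (fun k => α k + s))) := by
          intro t ht k hk
          have := hs'.2
          simp only [Set.mem_iInter, Set.mem_ofPred_eq] at this
          exact this ⟨t, ht⟩ k hk
        obtain ⟨w, hw, hev⟩ := germ_orbit hY (fun k => α k + s) m (e := e) (by
          intro t ht k hk
          constructor
          · intro h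
            exact absurd hk (h2 t ht k (Or.inl h)).ne'
          · intro h
            exact absurd hk (h2 t ht k (Or.inr h)).ne')
        -- no point of `T` just to the right of `s`
        have hnot : ∀ᶠ r in 𝓝[>] (0 : ℝ), s + r ∉ T := by
          filter_upwards [hev, self_mem_nhdsWithin] with r hr hr0 hmem
          have hr0' : (0 : ℝ) < r := hr0
          have h3 : (fun k => α k + (s + r)) ∈ Z := by rw [← e1]; exact hmem
          have e2 : (fun k => α k + s + r) = fun k => α k + (s + r) := by
            funext k; ring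
          rw [e2] at hr
          have h4 : (F e fun k => α k + (s + r))^[m] (Y fun k => α k + (s + r)) =
            xx e i j (fun k => α k + (s + r)) := h3.1
          have h5 : (F e fun k => α k + s)^[m] (Y fun k => α k + s) =
            xx e i j (fun k => α k + s) := hs'.1
          rw [xx_shift] at h4 h5
          rw [h4, h5] at hr
          have : (w : ℝ) * r = 0 := by linarith
          rcases mul_eq_zero.1 this with h6 | h6
          · exact hw (by exact_mod_cast h6)
          · exact hr0'.ne' h6
        have hnot2 : ∀ᶠ r in 𝓝[>] s, r ∉ T := by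
          have ht : Tendsto (fun r : ℝ => r - s) (𝓝[>] s) (𝓝[>] 0) := by
            apply tendsto_nhdsWithin_of_tendsto_nhds_of_eventually_within
            · have : Tendsto (fun r : ℝ => r - s) (𝓝 s) (𝓝 (s - s)) := by
                apply Continuous.tendsto; fun_prop
              rw [sub_self] at this
              exact this.mono_left nhdsWithin_le_nhds
            · filter_upwards [self_mem_nhdsWithin] with r hr
              have hr' : s < r := hr
              show (0 : ℝ) < r - s
              linarith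
          refine (ht.eventually hnot).mono fun r hr => ?_
          rwa [add_sub_cancel] at hr
        rw [← empty_mem_iff_bot, inter_comm, nhdsWithin_inter]
        have h6 : {r | r ∉ T} ∈ 𝓝[>] s ⊓ 𝓝[T] s := mem_inf_of_left hnot2
        have h7 : T ∈ 𝓝[>] s ⊓ 𝓝[T] s := mem_inf_of_right self_mem_nhdsWithin
        filter_upwards [h6, h7] with r h8 h9 using absurd h9 h8
      exact countable_setOfPred_isolated_right_within.mono hall
    exact hc.ae_notMem volume

/-! ### expanding families -/

/-- Parameters whose orbit stays bounded under a family `x ↦ Φ x + s` of expanding maps with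
two branches form a null set. -/
lemma null_words {Φ : ℝ → ℝ} {x : ℕ → ℝ → ℝ} (hx0 : ∀ s s', x 0 s' - x 0 s = s' - s)
    (hx : ∀ t s, x (t + 1) s = Φ (x t s) + s) {R L : ℝ → Prop} {a b : ℝ} (ha : 1 < a) (hb : 1 < b)
    (hab : 1 / a + 1 / b < 1) (hR : ∀ u v, R u → u ≤ v → Φ u + a * (v - u) ≤ Φ v)
    (hL : ∀ u v, L v → u ≤ v → Φ v + b * (v - u) ≤ Φ u) {B : ℝ} {E : Set ℝ}
    (hE : ∀ s ∈ E, ∀ t, (R (x t s) ∨ L (x t s)) ∧ |x t s| ≤ B) : volume E = 0 := by
  classical
  have ha1 : 0 < a - 1 := by linarith
  have hb0 : 0 < b := by linarith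
  have ha0 : 0 < a := by linarith
  set dm : ℝ := 1 / (a - 1) with hdm
  set dp : ℝ := a / (b * (a - 1)) with hdp
  set κ : ℝ := 1 - dp with hκ
  have hdm0 : 0 < dm := by positivity
  have hdp0 : 0 < dp := by positivity
  have hκ0 : 0 < κ := by
    rw [hκ, hdp, sub_pos, div_lt_one (by positivity)]
    rw [div_add_div _ _ ha0.ne' hb0.ne', div_lt_one (by positivity)] at hab
    nlinarith
  have e1 : b * dp = 1 + dm := by
    rw [hdp, hdm]
    field_simp
    ring
  have e2 : a * dm = 1 + dm := by
    rw [hdm]
    field_simp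
    ring
  set W : ℝ → ℕ → Bool := fun s t => decide (R (x t s)) with hW
  set c : Bool → ℝ := fun u => if u then a else b with hc
  have hc0 : ∀ u, 0 < c u := by
    intro u
    simp only [hc]
    split_ifs <;> assumption
  -- the invariant
  have inv : ∀ N : ℕ, ∀ s ∈ E, ∀ s' ∈ E, s < s' → (∀ t < N, W s t = W s' t) → ∀ t ≤ N,
      (0 < x t s' - x t s ∧ dp * (s' - s) + κ * (s' - s) * ∏ j ∈ Finset.range t, c (W s j) ≤
        x t s' - x t s) ∨
      (x t s' - x t s < 0 ∧ dm * (s' - s) + κ * (s' - s) * ∏ j ∈ Finset.range t, c (W s j) ≤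
        -(x t s' - x t s)) := by
    intro N s hs s' hs' hlt hword t
    induction t with
    | zero =>
      intro _
      left
      rw [hx0, Finset.prod_range_zero, mul_one]
      constructor
      · linarith
      · rw [hκ]; linarith
    | succ t ih =>
      intro ht
      have ih := ih (by omega)
      have hw := hword t (by omega)
      set δ := s' - s with hδ
      have hδ0 : 0 < δ := by rw [hδ]; linarith
      set C := κ * δ * ∏ j ∈ Finset.range t, c (W s j) with hC
      have hC0 : 0 < C := by
        rw [hC]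
        have := Finset.prod_pos (s := Finset.range t) fun j _ => hc0 (W s j)
        positivity
      rw [Finset.prod_range_succ, ← mul_assoc, ← hC, hx t s', hx t s]
      have ed : Φ (x t s') + s' - (Φ (x t s) + s) = (Φ (x t s') - Φ (x t s)) + δ := by
        rw [hδ]; ring
      rw [ed]
      by_cases hRs : R (x t s)
      · have hW1 : W s t = true := by simp [hW, hRs]
        have hRs' : R (x t s') := by
          rw [hW1] at hw
          simpa [hW] using hw.symm
        rw [hW1]
        simp only [hc, if_true]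
        rcases ih with ⟨h1, h2⟩ | ⟨h1, h2⟩
        · left
          have h3 := hR _ _ hRs (by linarith : x t s ≤ x t s')
          have h4 : a * (dp * δ + C) ≤ a * (x t s' - x t s) :=
            mul_le_mul_of_nonneg_left h2 ha0.le
          have h5 : dp * δ ≤ a * (dp * δ) := le_mul_of_one_le_left (by positivity) ha.le
          constructor <;> nlinarith [mul_pos ha0 hC0]
        · right
          have h3 := hR _ _ hRs' (by linarith : x t s' ≤ x t s)
          have h4 : a * (dm * δ + C) ≤ a * (-(x t s' - x t s)) :=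
            mul_le_mul_of_nonneg_left h2 ha0.le
          have h5 : a * (dm * δ) = δ + dm * δ := by rw [← mul_assoc, e2]; ring
          constructor <;> nlinarith [mul_pos ha0 hC0, mul_pos hdm0 hδ0]
      · have hW1 : W s t = false := by simp [hW, hRs]
        have hRs' : ¬ R (x t s') := by
          rw [hW1] at hw
          simpa [hW] using hw.symm
        have hLs : L (x t s) := ((hE s hs t).1).resolve_left hRs
        have hLs' : L (x t s') := ((hE s' hs' t).1).resolve_left hRs'
        rw [hW1]
        simp only [hc]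
        rcases ih with ⟨h1, h2⟩ | ⟨h1, h2⟩
        · right
          have h3 := hL _ _ hLs' (by linarith : x t s ≤ x t s')
          have h4 : b * (dp * δ + C) ≤ b * (x t s' - x t s) :=
            mul_le_mul_of_nonneg_left h2 hb0.le
          have h5 : b * (dp * δ) = δ + dm * δ := by rw [← mul_assoc, e1]; ring
          simp only [Bool.false_eq_true, if_false]
          constructor <;>
            nlinarith [mul_pos hb0 hC0, mul_pos hdm0 hδ0]
        · left
          have h3 := hL _ _ hLs (by linarith : x t s' ≤ x t s)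
          have h4 : b * (dm * δ + C) ≤ b * (-(x t s' - x t s)) :=
            mul_le_mul_of_nonneg_left h2 hb0.le
          have h5 : dp * δ < δ := by
            have : dp < 1 := by linarith
            nlinarith
          simp only [Bool.false_eq_true, if_false]
          constructor <;>
            nlinarith [mul_pos hb0 hC0, mul_pos (mul_pos hb0 hdm0) hδ0]
  -- the bound for all `N`
  have hB0 : 0 ≤ B ∨ E = ∅ := by
    rcases E.eq_empty_or_nonempty with h | ⟨s, hs⟩
    · exact Or.inr h
    · exact Or.inl ((abs_nonneg _).trans (hE s hs 0).2)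
  rcases hB0 with hB0 | hB0
  swap
  · rw [hB0]; simp
  have bound : ∀ N : ℕ, volume E ≤ ENNReal.ofReal (2 * B / κ * (1 / a + 1 / b) ^ N) := by
    intro N
    set S : (Fin N → Bool) → Set ℝ := fun ω => {s ∈ E | ∀ t : Fin N, W s t = ω t} with hS
    have hcov : E ⊆ ⋃ ω, S ω := by
      intro s hs
      exact mem_iUnion.2 ⟨fun t => W s t, hs, fun t => rfl⟩
    have hSω : ∀ ω, volume (S ω) ≤ ENNReal.ofReal (2 * B / κ * ∏ t, (c (ω t))⁻¹) := by
      intro ω
      refine (Real.volume_le_diam _).trans ?_
      have hpos : 0 < ∏ t, c (ω t) := Finset.prod_pos fun t _ => hc0 _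
      have key : ∀ s ∈ S ω, ∀ s' ∈ S ω, s < s' → s' - s ≤ 2 * B / κ * ∏ t, (c (ω t))⁻¹ := by
        intro s hs s' hs' hlt
        have h1 := inv N s hs.1 s' hs'.1 hlt
          (fun t ht => (hs.2 ⟨t, ht⟩).trans (hs'.2 ⟨t, ht⟩).symm) N le_rfl
        have h2 : ∏ j ∈ Finset.range N, c (W s j) = ∏ t, c (ω t) := by
          rw [Finset.prod_range]
          exact Finset.prod_congr rfl fun t _ => by rw [hs.2 t]
        rw [h2] at h1
        have h3 := abs_le.1 (hE s hs.1 N).2
        have h4 := abs_le.1 (hE s' hs'.1 N).2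
        have hδ0 : 0 < s' - s := by linarith
        have h5 : κ * (s' - s) * ∏ t, c (ω t) ≤ 2 * B := by
          rcases h1 with ⟨h5, h6⟩ | ⟨h5, h6⟩
          · nlinarith [mul_pos hdp0 hδ0]
          · nlinarith [mul_pos hdm0 hδ0]
        rw [Finset.prod_inv_distrib, ← div_eq_mul_inv, div_div, le_div_iff₀ (by positivity)]
        linarith
      apply Metric.ediam_le
      intro s hs s' hs'
      rw [edist_dist]
      apply ENNReal.ofReal_le_ofReal
      rw [Real.dist_eq]
      rcases lt_trichotomy s s' with h | h | h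
      · rw [abs_sub_comm, abs_of_pos (by linarith)]
        exact key s hs s' hs' h
      · rw [h, sub_self, abs_zero]
        have : 0 < ∏ t, (c (ω t))⁻¹ := Finset.prod_pos fun t _ => inv_pos.2 (hc0 _)
        positivity
      · rw [abs_of_pos (by linarith)]
        exact key s' hs' s hs h
    calc volume E ≤ volume (⋃ ω, S ω) := measure_mono hcov
      _ ≤ ∑ ω, volume (S ω) := measure_iUnion_fintype_le _ _
      _ ≤ ∑ ω : Fin N → Bool, ENNReal.ofReal (2 * B / κ * ∏ t, (c (ω t))⁻¹) :=
          Finset.sum_le_sum fun ω _ => hSω ω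
      _ = ENNReal.ofReal (∑ ω : Fin N → Bool, 2 * B / κ * ∏ t, (c (ω t))⁻¹) := by
          rw [ENNReal.ofReal_sum_of_nonneg]
          intro ω _
          have : 0 < ∏ t, (c (ω t))⁻¹ := Finset.prod_pos fun t _ => inv_pos.2 (hc0 _)
          positivity
      _ = ENNReal.ofReal (2 * B / κ * (1 / a + 1 / b) ^ N) := by
          congr 1
          rw [← Finset.mul_sum]
          congr 1
          have h1 := Fintype.sum_pow (fun u : Bool => (c u)⁻¹) N
          rw [← h1]
          congr 1
          simp [hc, one_div]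
  have h0 : 0 ≤ 1 / a + 1 / b := by positivity
  have hlim : Tendsto (fun N : ℕ => ENNReal.ofReal (2 * B / κ * (1 / a + 1 / b) ^ N)) atTop
      (𝓝 0) := by
    rw [← ENNReal.ofReal_zero]
    apply ENNReal.tendsto_ofReal
    have := (tendsto_pow_atTop_nhds_zero_of_lt_one h0 hab).const_mul (2 * B / κ)
    rwa [mul_zero] at this
  exact le_antisymm (ge_of_tendsto' hlim bound) (zero_le)

end Pool.Agent.K3h63.LT
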