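import Mathlib
import Pool.Agent.K3h63.LT.Trop

/-!
# Tropical Laurent polynomials: the fate of the orbits of the start values
-/

set_option autoImplicit false

open Filter Topology MeasureTheory Set

set_option linter.unusedSectionVars false

namespace Pool.Agent.K3h63.LT

variable {ι : Type*} [Fintype ι] [Nonempty ι] {e : ι → ℤ}

/-- the repelling fixed point of the line of index `d` -/
noncomputable def pd (e : ι → ℤ) (d : ι) (α : ι → ℝ) : ℝ := -α d / ((e d : ℝ) - 1)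

lemma continuous_pd (d : ι) : Continuous (pd e d) := by
  unfold pd
  fun_prop

/-- the orbit never escapes and only uses lines with large slopes -/
def Bad (e : ι → ℤ) (d : ι) (a b : ℤ) (Y : (ι → ℝ) → ℝ) : Set (ι → ℝ) :=
  {α | ∀ t : ℕ, (F e α)^[t] (Y α) ≤ pd e d α ∧
    ((∃ i, a ≤ e i ∧ F e α ((F e α)^[t] (Y α)) = α i + (e i : ℝ) * (F e α)^[t] (Y α)) ∨
     (∃ i, e i ≤ -b ∧ F e α ((F e α)^[t] (Y α)) = α i + (e i : ℝ) * (F e α)^[t] (Y α)))}

lemma measurable_bad {Y : (ι → ℝ) → ℝ} (hY : Continuous Y) (d : ι) (a b : ℤ) :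
    MeasurableSet (Bad e d a b Y) := by
  classical
  have hact : ∀ (t : ℕ) (i : ι), MeasurableSet {α : ι → ℝ |
      F e α ((F e α)^[t] (Y α)) = α i + (e i : ℝ) * (F e α)^[t] (Y α)} := by
    intro t i
    apply IsClosed.measurableSet
    apply isClosed_eq
    · exact continuous_F.comp (continuous_id.prodMk (continuous_orbit hY t))
    · have := continuous_orbit (e := e) hY t
      fun_prop
  have h1 : Bad e d a b Y = ⋂ t : ℕ, ({α | (F e α)^[t] (Y α) ≤ pd e d α} ∩
      ((⋃ i : {i : ι // a ≤ e i}, {α : ι → ℝ |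
        F e α ((F e α)^[t] (Y α)) = α i + (e i : ℝ) * (F e α)^[t] (Y α)}) ∪
       (⋃ i : {i : ι // e i ≤ -b}, {α : ι → ℝ |
        F e α ((F e α)^[t] (Y α)) = α i + (e i : ℝ) * (F e α)^[t] (Y α)}))) := by
    ext α
    simp only [Bad, Set.mem_ofPred_eq, Set.mem_iInter, Set.mem_inter_iff, Set.mem_union,
      Set.mem_iUnion, Subtype.exists, exists_prop]
  rw [h1]
  refine MeasurableSet.iInter fun t => MeasurableSet.inter ?_ (MeasurableSet.union ?_ ?_)
  · exact (isClosed_le (continuous_orbit hY t) (continuous_pd d)).measurableSet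
  · exact MeasurableSet.iUnion fun i => hact t i
  · exact MeasurableSet.iUnion fun i => hact t i

lemma null_bad {Y : (ι → ℝ) → ℝ} (hY : IsStart Y) {d l : ι} (hd : 2 ≤ e d) (hl : e l ≤ -2)
    {a b : ℤ} (ha : 1 < a) (hb : 1 < b) (hab : 1 / (a : ℝ) + 1 / (b : ℝ) < 1) :
    ∀ᵐ α : ι → ℝ, α ∉ Bad e d a b Y := by
  refine null_of_translate (measurable_bad hY.1 d a b) (fun _ => 1) fun α => ?_
  have e1 : ∀ s : ℝ, α + s • (fun _ : ι => (1 : ℝ)) = fun k => α k + s := by
    intro s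
    funext k
    simp
  have hd' : (2 : ℝ) ≤ e d := by exact_mod_cast hd
  have hl' : (e l : ℝ) ≤ -2 := by exact_mod_cast hl
  have key : ∀ A : ℕ, volume {s : ℝ | |s| ≤ A ∧ (fun k => α k + s) ∈ Bad e d a b Y} = 0 := by
    intro A
    have hact : ∀ (s u : ℝ) (i : ι), F e (fun k => α k + s) u = (α i + s) + (e i : ℝ) * u →
        F e α u = α i + (e i : ℝ) * u := by
      intro s u i h
      rw [F_shift] at h
      linarith
    refine null_words (Φ := F e α)
      (x := fun t s => (F e (fun k => α k + s))^[t] (Y (fun k => α k + s)))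
      (R := fun u => ∃ i, a ≤ e i ∧ F e α u = α i + (e i : ℝ) * u)
      (L := fun u => ∃ i, e i ≤ -b ∧ F e α u = α i + (e i : ℝ) * u) (a := a) (b := b)
      (B := (|α d| + A) + ((|α d| + A) + |α l| + A)) ?_ ?_ (by exact_mod_cast ha)
      (by exact_mod_cast hb) hab ?_ ?_ ?_
    · intro s s'
      simp only [Function.iterate_zero, id_eq]
      have h1 := hY.2 α s
      have h2 := hY.2 α s'
      rw [h1, h2]
      ring
    · intro t s
      simp only [Function.iterate_succ_apply']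
      rw [F_shift]
    · rintro u v ⟨i, hi, h⟩ huv
      have h1 := le_F (e := e) α v i
      have h2 : (a : ℝ) ≤ e i := by exact_mod_cast hi
      nlinarith
    · rintro u v ⟨i, hi, h⟩ huv
      have h1 := le_F (e := e) α u i
      have h2 : (e i : ℝ) ≤ -b := by exact_mod_cast hi
      nlinarith
    · rintro s ⟨hsA, hs⟩ t
      have hup : ∀ t : ℕ, (F e (fun k => α k + s))^[t] (Y (fun k => α k + s)) ≤ |α d| + A := by
        intro t
        refine (hs t).1.trans ?_
        unfold pd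
        have h1 : -(α d + s) ≤ |α d| + A := by
          have := neg_abs_le (α d)
          have := neg_abs_le s
          linarith
        have h0 : 0 ≤ |α d| + A := by positivity
        rw [div_le_iff₀ (by linarith)]
        nlinarith
      have h1 := hup t
      have h2 := hup (t + 1)
      have h3 := le_F (e := e) (fun k => α k + s)
        ((F e (fun k => α k + s))^[t] (Y (fun k => α k + s))) l
      rw [Function.iterate_succ_apply'] at h2
      set u := (F e (fun k => α k + s))^[t] (Y (fun k => α k + s)) with hu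
      refine ⟨?_, ?_⟩
      · rcases (hs t).2 with ⟨i, hi, h⟩ | ⟨i, hi, h⟩
        · exact Or.inl ⟨i, hi, hact s u i h⟩
        · exact Or.inr ⟨i, hi, hact s u i h⟩
      · have h4 : 0 ≤ |α d| + A := by positivity
        have h5 : 0 ≤ |α l| := abs_nonneg _
        have h6 := neg_abs_le (α l)
        have h7 := neg_abs_le s
        have h8 : (0 : ℝ) ≤ A := Nat.cast_nonneg _
        rw [abs_le]
        constructor
        · by_cases h9 : 0 ≤ u
          · linarith
          · push Not at h9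
            have h10 : (e l : ℝ) * u ≤ (|α d| + A) + |α l| + A := by linarith
            nlinarith
        · linarith
  have h2 : volume (⋃ A : ℕ, {s : ℝ | |s| ≤ A ∧ (fun k => α k + s) ∈ Bad e d a b Y}) = 0 :=
    measure_iUnion_null key
  rw [ae_iff]
  refine measure_mono_null ?_ h2
  intro s hs
  simp only [Set.mem_ofPred_eq, not_not] at hs
  rw [e1] at hs
  obtain ⟨A, hA⟩ := exists_nat_ge |s|
  exact mem_iUnion.2 ⟨A, hA, hs⟩

/-- the start values: the coefficients and the critical values -/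
noncomputable def Ys (e : ι → ℤ) : ι ⊕ (ι × ι) → (ι → ℝ) → ℝ
  | Sum.inl i => fun α => α i
  | Sum.inr p => fun α => F e α (xx e p.1 p.2 α)

lemma isStart_Ys (σ : ι ⊕ (ι × ι)) : IsStart (Ys e σ) := by
  rcases σ with i | p
  · exact isStart_coeff i
  · exact isStart_crit p.1 p.2

/-- generic coefficients -/
structure Gen (e : ι → ℤ) (d : ι) (α : ι → ℝ) : Prop where
  col : ∀ i j k, i ≠ j → i ≠ k → j ≠ k →
    α i * ((e j : ℝ) - e k) + α j * ((e k : ℝ) - e i) + α k * ((e i : ℝ) - e j) ≠ 0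
  avoid : ∀ (σ : ι ⊕ (ι × ι)) (m : ℕ) (i j : ι), (∀ t < m, ∀ k, (e k = 1 ∨ e k = -1) →
    α k + (e k : ℝ) * (F e α)^[t] (Ys e σ α) < F e α ((F e α)^[t] (Ys e σ α))) →
      (F e α)^[m] (Ys e σ α) ≠ xx e i j α
  bad1 : ∀ σ, α ∉ Bad e d 3 2 (Ys e σ)
  bad2 : ∀ σ, α ∉ Bad e d 2 3 (Ys e σ)

lemma ae_gen (he : Function.Injective e) {d l : ι} (hd : 2 ≤ e d) (hl : e l ≤ -2) :
    ∀ᵐ α : ι → ℝ, Gen e d α := by
  have h1 : ∀ᵐ α : ι → ℝ, ∀ i j k, i ≠ j → i ≠ k → j ≠ k →
      α i * ((e j : ℝ) - e k) + α j * ((e k : ℝ) - e i) + α k * ((e i : ℝ) - e j) ≠ 0 := by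
    simp only [ae_all_iff, Filter.eventually_imp_distrib_left]
    intro i j k hij hik hjk
    exact ae_collinear i j k (fun h => hjk (he h)) hij hik
  have h2 : ∀ᵐ α : ι → ℝ, ∀ (σ : ι ⊕ (ι × ι)) (m : ℕ) (i j : ι),
      (∀ t < m, ∀ k, (e k = 1 ∨ e k = -1) →
      α k + (e k : ℝ) * (F e α)^[t] (Ys e σ α) < F e α ((F e α)^[t] (Ys e σ α))) →
      (F e α)^[m] (Ys e σ α) ≠ xx e i j α := by
    simp only [ae_all_iff]
    intro σ m i j
    exact ae_orbit (isStart_Ys σ) m i j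
  have h3 : ∀ᵐ α : ι → ℝ, ∀ σ, α ∉ Bad e d 3 2 (Ys e σ) := by
    rw [ae_all_iff]
    intro σ
    exact null_bad (isStart_Ys σ) hd hl (by norm_num) (by norm_num) (by norm_num)
  have h4 : ∀ᵐ α : ι → ℝ, ∀ σ, α ∉ Bad e d 2 3 (Ys e σ) := by
    rw [ae_all_iff]
    intro σ
    exact null_bad (isStart_Ys σ) hd hl (by norm_num) (by norm_num) (by norm_num)
  filter_upwards [h1, h2, h3, h4] with α a1 a2 a3 a4
  exact ⟨a1, a2, a3, a4⟩

/-- the exponents `±1` never attain the maximum, and not both of `2` and `-2` do -/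
def Tame (e : ι → ℤ) (α : ι → ℝ) : Prop :=
  (∀ i, (e i = 1 ∨ e i = -1) → ∀ x : ℝ, α i + (e i : ℝ) * x < F e α x) ∧
  ∀ i j, e i = 2 → e j = -2 → ¬ ((∃ x : ℝ, F e α x = α i + (e i : ℝ) * x) ∧
    ∃ x : ℝ, F e α x = α j + (e j : ℝ) * x)

/-- the exponent zero strictly dominates -/
def OP (e : ι → ℤ) (α : ι → ℝ) (x : ℝ) : Prop := ∀ i, e i ≠ 0 → α i + (e i : ℝ) * x < F e α x

lemma OP.exists {α : ι → ℝ} {x : ℝ} (h : OP e α x) : ∃ i, e i = 0 ∧ F e α x = α i := by
  obtain ⟨i, hi⟩ := exists_eq_F (e := e) α x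
  by_cases h0 : e i = 0
  · refine ⟨i, h0, ?_⟩
    rw [hi, h0]
    simp
  · exact absurd hi (h i h0).ne'

lemma Gen.avoid' {d : ι} {α : ι → ℝ} (hg : Gen e d α) (hT : Tame e α) (σ : ι ⊕ (ι × ι)) (m : ℕ)
    (i j : ι) : (F e α)^[m] (Ys e σ α) ≠ xx e i j α :=
  hg.avoid σ m i j fun _ _ k hk => hT.1 k hk _

lemma tendsto_of_pd_lt {d : ι} (hd : 2 ≤ e d) {α : ι → ℝ} {y : ℝ} (hy : pd e d α < y) :
    Tendsto (fun m : ℕ => (F e α)^[m] y) atTop atTop := by
  have hd' : (2 : ℝ) ≤ e d := by exact_mod_cast hd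
  have hp : α d = -((e d : ℝ) - 1) * pd e d α := by
    unfold pd
    have : (e d : ℝ) - 1 ≠ 0 := by linarith
    field_simp
  have h1 : ∀ m : ℕ, (y - pd e d α) * 2 ^ m + pd e d α ≤ (F e α)^[m] y := by
    intro m
    induction m with
    | zero => simp
    | succ m ih =>
      rw [Function.iterate_succ_apply']
      have h2 := le_F (e := e) α ((F e α)^[m] y) d
      rw [hp] at h2
      have h3 : 0 < (y - pd e d α) * 2 ^ m := mul_pos (by linarith) (by positivity)
      have h4 : (y - pd e d α) * 2 ^ (m + 1) = 2 * ((y - pd e d α) * 2 ^ m) := by ring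
      rw [h4]
      nlinarith
  refine tendsto_atTop_mono h1 ?_
  apply tendsto_atTop_add_const_right
  exact (tendsto_pow_atTop_atTop_of_one_lt (by norm_num : (1 : ℝ) < 2)).const_mul_atTop
    (by linarith)

lemma fate_trop {d : ι} {α : ι → ℝ} (hg : Gen e d α) (hT : Tame e α) (σ : ι ⊕ (ι × ι)) :
    (∃ t : ℕ, pd e d α < (F e α)^[t] (Ys e σ α)) ∨ ∃ t : ℕ, OP e α ((F e α)^[t] (Ys e σ α)) := by
  by_contra hcon
  push Not at hcon
  obtain ⟨h1, h2⟩ := hcon
  have h3 : ∀ t : ℕ, ∃ i, e i ≠ 0 ∧ e i ≠ 1 ∧ e i ≠ -1 ∧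
      F e α ((F e α)^[t] (Ys e σ α)) = α i + (e i : ℝ) * (F e α)^[t] (Ys e σ α) := by
    intro t
    have h4 := h2 t
    unfold OP at h4
    push Not at h4
    obtain ⟨i, hi, hle⟩ := h4
    have h5 := le_antisymm hle (le_F α _ i)
    refine ⟨i, hi, fun h => ?_, fun h => ?_, h5⟩
    · exact (hT.1 i (Or.inl h) _).ne' h5
    · exact (hT.1 i (Or.inr h) _).ne' h5
  by_cases h4 : ∃ i, e i = 2 ∧ ∃ x : ℝ, F e α x = α i + (e i : ℝ) * x
  · obtain ⟨i, hi, hx⟩ := h4
    apply hg.bad2 σ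
    intro t
    refine ⟨h1 t, ?_⟩
    obtain ⟨j, hj0, hj1, hj2, hj⟩ := h3 t
    by_cases hj3 : e j = -2
    · exact absurd ⟨hx, ⟨_, hj⟩⟩ (hT.2 i j hi hj3)
    · by_cases hj4 : 0 < e j
      · exact Or.inl ⟨j, by omega, hj⟩
      · exact Or.inr ⟨j, by omega, hj⟩
  · push Not at h4
    apply hg.bad1 σ
    intro t
    refine ⟨h1 t, ?_⟩
    obtain ⟨j, hj0, hj1, hj2, hj⟩ := h3 t
    by_cases hj3 : e j = 2
    · exact absurd hj (h4 j hj3 _)
    · by_cases hj4 : 0 < e j
      · exact Or.inl ⟨j, by omega, hj⟩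
      · exact Or.inr ⟨j, by omega, hj⟩

/-- the orbit of a start value tends to infinity, or it falls into the unique cycle -/
lemma fate_trop2 {d : ι} {α : ι → ℝ} (hd : 2 ≤ e d) (hg : Gen e d α) (hT : Tame e α)
    (σ : ι ⊕ (ι × ι)) :
    Tendsto (fun m : ℕ => (F e α)^[m] (Ys e σ α)) atTop atTop ∨
    ∃ i₀, e i₀ = 0 ∧ (∃ N : ℕ, OP e α ((F e α)^[N] (α i₀))) ∧
      ∃ m : ℕ, OP e α ((F e α)^[m] (Ys e σ α)) := by
  rcases fate_trop hg hT σ with ⟨t, ht⟩ | ⟨t, ht⟩
  · left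
    rw [← tendsto_add_atTop_iff_nat t]
    simp only [Function.iterate_add_apply]
    exact tendsto_of_pd_lt hd ht
  · obtain ⟨i₀, hi₀, hF⟩ := ht.exists
    rcases fate_trop hg hT (Sum.inl i₀) with ⟨N, hN⟩ | ⟨N, hN⟩
    · left
      rw [← tendsto_add_atTop_iff_nat (N + (t + 1))]
      simp only [Function.iterate_add_apply _ _ (N + (t + 1))]
      have e1 : (F e α)^[N + (t + 1)] (Ys e σ α) = (F e α)^[N] (Ys e (Sum.inl i₀) α) := by
        rw [Function.iterate_add_apply, Function.iterate_succ_apply', hF]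
        rfl
      rw [e1]
      exact tendsto_of_pd_lt hd hN
    · exact Or.inr ⟨i₀, hi₀, ⟨N, hN⟩, t, ht⟩

end Pool.Agent.K3h63.LT
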