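import Mathlib
import Pool.Agent.K3h63.LT.Fate
import Pool.Agent.TH639.LS.Lim

/-!
# The tropical limit of Laurent polynomials
-/

set_option autoImplicit false

open Filter Topology MeasureTheory Polynomial

set_option linter.unusedSectionVars false

namespace Pool.Agent.K3h63.LT

open Pool.Agent.TH639.LS (Sz Sz.mul Sz.const_mul Sz.ratio Sz.sum Sz.const)

variable {Ω ι : Type*} [Fintype ι] [Nonempty ι] {e : ι → ℤ} {l : Filter Ω} {t : Ω → ℝ}
  {a : Ω → ι → ℂ} {α : ι → ℝ}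

lemma Sz.zpow {u : Ω → ℂ} {y : ℝ} (hu : Sz l t u y) (n : ℤ) :
    Sz l t (fun ω => u ω ^ n) ((n : ℝ) * y) := by
  refine ⟨by filter_upwards [hu.1] with ω h1 using zpow_ne_zero _ h1, ?_⟩
  refine (hu.2.const_mul (n : ℝ)).congr ?_
  intro ω
  rw [norm_zpow, Real.log_zpow, mul_div_assoc]

/-- the Laurent polynomial with exponents `e i` and coefficients `a i` -/
noncomputable def G (e : ι → ℤ) (a : ι → ℂ) (z : ℂ) : ℂ := ∑ i, a i * z ^ (e i)

/-- one step of the orbit -/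
lemma step (ht : Tendsto t l atTop) (ha : ∀ i, Sz l t (fun ω => a ω i) (α i)) {z : Ω → ℂ} {y : ℝ}
    (hz : Sz l t z y) (he : Function.Injective e) (hy : ∀ k j, y ≠ xx e k j α) :
    Sz l t (fun ω => G e (a ω) (z ω)) (F e α y) := by
  obtain ⟨m, hm⟩ := exists_eq_F (e := e) α y
  unfold G
  have hterm : ∀ k, Sz l t (fun ω => a ω k * z ω ^ (e k)) (α k + (e k : ℝ) * y) :=
    fun k => Sz.mul (ha k) (Sz.zpow hz (e k))
  rw [hm]
  refine Sz.sum (u := fun k ω => a ω k * z ω ^ (e k)) ht (hterm m) ?_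
  intro k hk
  refine Sz.ratio ht (hterm k) (hterm m) ?_
  rw [← hm]
  refine lt_of_le_of_ne (le_F α y k) ?_
  rw [hm]
  intro h
  apply hy k m
  have hne : (e m : ℝ) - e k ≠ 0 := by
    intro h0
    apply hk
    apply he
    have : (e m : ℝ) = e k := by linarith
    exact_mod_cast this.symm
  unfold xx
  rw [eq_div_iff hne]
  linarith

lemma orbit (ht : Tendsto t l atTop) (ha : ∀ i, Sz l t (fun ω => a ω i) (α i)) {z : Ω → ℂ} {y : ℝ}
    (hz : Sz l t z y) (he : Function.Injective e)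
    (hy : ∀ (m : ℕ) (k j : ι), (F e α)^[m] y ≠ xx e k j α) (m : ℕ) :
    Sz l t (fun ω => (G e (a ω))^[m] (z ω)) ((F e α)^[m] y) := by
  induction m with
  | zero => simpa using hz
  | succ m ih =>
    simp only [Function.iterate_succ_apply']
    exact step ht ha ih he (hy m)

/-- where the exponent zero dominates, the map is almost constant -/
lemma step_const (ht : Tendsto t l atTop) (ha : ∀ i, Sz l t (fun ω => a ω i) (α i)) {z : Ω → ℂ}
    {y : ℝ} (hz : Sz l t z y) (he : Function.Injective e) {i₀ : ι} (hi₀ : e i₀ = 0)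
    (hy : OP e α y) :
    Tendsto (fun ω => G e (a ω) (z ω) / a ω i₀) l (𝓝 1) := by
  classical
  have hterm : ∀ k, Sz l t (fun ω => a ω k * z ω ^ (e k)) (α k + (e k : ℝ) * y) :=
    fun k => Sz.mul (ha k) (Sz.zpow hz (e k))
  have hF : F e α y = α i₀ := by
    obtain ⟨i, hi, h⟩ := hy.exists
    rw [h, he (hi.trans hi₀.symm)]
  have h1 : Tendsto (fun ω => ∑ k, a ω k * z ω ^ (e k) / a ω i₀) l
      (𝓝 (∑ k, if k = i₀ then (1 : ℂ) else 0)) := by
    apply tendsto_finsetSum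
    intro k _
    split_ifs with h
    · subst h
      refine tendsto_const_nhds.congr' ?_
      filter_upwards [(ha k).1] with ω h1
      rw [hi₀, zpow_zero, mul_one, div_self h1]
    · refine Sz.ratio ht (hterm k) (ha i₀) ?_
      rw [← hF]
      exact hy k fun h0 => h (he (h0.trans hi₀.symm))
  simp only [Finset.sum_ite_eq', Finset.mem_univ, if_true] at h1
  refine h1.congr ?_
  intro ω
  rw [G, Finset.sum_div]

/-- the escape radius -/
lemma escape (ht : Tendsto t l atTop) (ha : ∀ i, Sz l t (fun ω => a ω i) (α i)) {d : ι}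
    (hd : 2 ≤ e d) (hmax : ∀ k, k ≠ d → e k < e d) : ∃ X : ℝ, ∀ᶠ ω in l, ∀ w : ℂ,
      Real.exp (t ω * X) ≤ ‖w‖ → 2 * ‖w‖ ≤ ‖G e (a ω) w‖ := by
  classical
  have hc : (0 : ℝ) < Fintype.card ι := by exact_mod_cast Fintype.card_pos
  -- choose `X`
  have hex : ∃ X : ℝ, (0 < α d + ((e d : ℝ) - 1) * X) ∧ ∀ k, k ≠ d →
      α k - α d < ((e d : ℝ) - e k) * X := by
    have h1 : ∀ᶠ X : ℝ in atTop, 0 < α d + ((e d : ℝ) - 1) * X := by
      have hpos : (0 : ℝ) < (e d : ℝ) - 1 := by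
        have : (2 : ℝ) ≤ e d := by exact_mod_cast hd
        linarith
      exact (tendsto_atTop_add_const_left _ _ (tendsto_id.const_mul_atTop hpos)).eventually_gt_atTop 0
    have h2 : ∀ᶠ X : ℝ in atTop, ∀ k, k ≠ d → α k - α d < ((e d : ℝ) - e k) * X := by
      rw [Filter.eventually_all]
      intro k
      by_cases hk : k = d
      · exact Eventually.of_forall fun X h => absurd hk h
      · have hpos : (0 : ℝ) < (e d : ℝ) - e k := by
          have : (e k : ℝ) < e d := by exact_mod_cast hmax k hk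
          linarith
        filter_upwards [(tendsto_id.const_mul_atTop hpos).eventually_gt_atTop (α k - α d)]
          with X hX _
        exact hX
    obtain ⟨X, hX⟩ := (h1.and h2).exists
    exact ⟨X, hX⟩
  obtain ⟨X, hX1, hX2⟩ := hex
  refine ⟨X, ?_⟩
  set w₀ : Ω → ℂ := fun ω => ((Real.exp (t ω * X) : ℝ) : ℂ) with hw₀
  have hw₀n : ∀ ω, ‖w₀ ω‖ = Real.exp (t ω * X) := by
    intro ω
    rw [hw₀]
    simp only
    rw [Complex.norm_real, Real.norm_of_nonneg (Real.exp_pos _).le]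
  have hw₀S : Sz l t w₀ X := by
    refine ⟨Eventually.of_forall fun ω => ?_, ?_⟩
    · rw [← norm_pos_iff, hw₀n]; exact Real.exp_pos _
    · refine tendsto_const_nhds.congr' ?_
      filter_upwards [ht.eventually_gt_atTop 0] with ω h
      rw [hw₀n, Real.log_exp]
      field_simp
  have hterm : ∀ k, Sz l t (fun ω => a ω k * w₀ ω ^ (e k)) (α k + (e k : ℝ) * X) :=
    fun k => Sz.mul (ha k) (Sz.zpow hw₀S (e k))
  have h1 : Tendsto (fun ω => w₀ ω / (a ω d * w₀ ω ^ (e d))) l (𝓝 0) :=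
    Sz.ratio ht hw₀S (hterm d) (by linarith)
  have h2 : ∀ k, k ≠ d → Tendsto (fun ω => (a ω k * w₀ ω ^ (e k)) / (a ω d * w₀ ω ^ (e d))) l
      (𝓝 0) := fun k hk => Sz.ratio ht (hterm k) (hterm d) (by linarith [hX2 k hk])
  have h1' : ∀ᶠ ω in l, ‖w₀ ω / (a ω d * w₀ ω ^ (e d))‖ < 1 / 4 :=
    (tendsto_zero_iff_norm_tendsto_zero.1 h1).eventually_lt_const (by norm_num)
  have h2' : ∀ᶠ ω in l, ∀ k, k ≠ d →
      ‖(a ω k * w₀ ω ^ (e k)) / (a ω d * w₀ ω ^ (e d))‖ < 1 / (2 * Fintype.card ι) := by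
    rw [Filter.eventually_all]
    intro k
    by_cases hk : k = d
    · exact Eventually.of_forall fun ω h => absurd hk h
    · filter_upwards [(tendsto_zero_iff_norm_tendsto_zero.1 (h2 k hk)).eventually_lt_const
        (show (0 : ℝ) < 1 / (2 * Fintype.card ι) by positivity)] with ω h _
      exact h
  filter_upwards [h1', h2', (ha d).1] with ω h3 h4 h5 w hw
  have hpos : 0 < Real.exp (t ω * X) := Real.exp_pos _
  have hw0 : 0 < ‖w‖ := lt_of_lt_of_le hpos hw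
  have had := norm_pos_iff.2 h5
  set r := ‖w₀ ω‖ with hr
  have hr0 : 0 < r := by rw [hr, hw₀n]; exact hpos
  have hrw : r ≤ ‖w‖ := by rw [hr, hw₀n]; exact hw
  -- the monotonicity of the ratios
  have hmono : ∀ n : ℤ, n ≤ e d → ‖w‖ ^ n * r ^ (e d) ≤ r ^ n * ‖w‖ ^ (e d) := by
    intro n hn
    have h6 : r ^ (e d - n) ≤ ‖w‖ ^ (e d - n) := by
      apply zpow_le_zpow_left₀ (by omega) hr0.le hrw
    have e1 : r ^ (e d) = r ^ n * r ^ (e d - n) := by
      rw [← zpow_add₀ hr0.ne']; congr 1; ring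
    have e2 : ‖w‖ ^ (e d) = ‖w‖ ^ n * ‖w‖ ^ (e d - n) := by
      rw [← zpow_add₀ hw0.ne']; congr 1; ring
    rw [e1, e2]
    have h7 : 0 < ‖w‖ ^ n * r ^ n := mul_pos (zpow_pos hw0 _) (zpow_pos hr0 _)
    calc ‖w‖ ^ n * (r ^ n * r ^ (e d - n)) = (‖w‖ ^ n * r ^ n) * r ^ (e d - n) := by ring
      _ ≤ (‖w‖ ^ n * r ^ n) * ‖w‖ ^ (e d - n) := by gcongr
      _ = r ^ n * (‖w‖ ^ n * ‖w‖ ^ (e d - n)) := by ring
  have hrd : 0 < r ^ (e d) := zpow_pos hr0 _
  have hwd : 0 < ‖w‖ ^ (e d) := zpow_pos hw0 _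
  have h6 : 4 * ‖w‖ ≤ ‖a ω d * w ^ (e d)‖ := by
    rw [norm_div, norm_mul, norm_zpow, ← hr, div_lt_iff₀ (by positivity)] at h3
    rw [norm_mul, norm_zpow]
    have h7 := hmono 1 (by omega)
    rw [zpow_one, zpow_one] at h7
    have h8 : 4 * ‖w‖ * r ^ (e d) ≤ ‖a ω d‖ * ‖w‖ ^ (e d) * r ^ (e d) := by
      have h9 : r * ‖w‖ ^ (e d) ≤ 1 / 4 * (‖a ω d‖ * r ^ (e d)) * ‖w‖ ^ (e d) :=
        mul_le_mul_of_nonneg_right h3.le hwd.le
      nlinarith
    exact le_of_mul_le_mul_right h8 hrd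
  have h7 : ∀ k, k ≠ d → ‖a ω k * w ^ (e k)‖ ≤ ‖a ω d * w ^ (e d)‖ / (2 * Fintype.card ι) := by
    intro k hk
    have h8 := h4 k hk
    rw [norm_div, norm_mul, norm_zpow, norm_mul, norm_zpow, ← hr,
      div_lt_iff₀ (by positivity)] at h8
    rw [norm_mul, norm_zpow, norm_mul, norm_zpow]
    have h9 := hmono (e k) (hmax k hk).le
    have h10 : ‖a ω k‖ * ‖w‖ ^ (e k) * r ^ (e d) ≤
        ‖a ω d‖ * ‖w‖ ^ (e d) / (2 * Fintype.card ι) * r ^ (e d) := by
      calc ‖a ω k‖ * ‖w‖ ^ (e k) * r ^ (e d) = ‖a ω k‖ * (‖w‖ ^ (e k) * r ^ (e d)) := by ring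
        _ ≤ ‖a ω k‖ * (r ^ (e k) * ‖w‖ ^ (e d)) := by gcongr
        _ = (‖a ω k‖ * r ^ (e k)) * ‖w‖ ^ (e d) := by ring
        _ ≤ (1 / (2 * Fintype.card ι) * (‖a ω d‖ * r ^ (e d))) * ‖w‖ ^ (e d) :=
            mul_le_mul_of_nonneg_right h8.le hwd.le
        _ = ‖a ω d‖ * ‖w‖ ^ (e d) / (2 * Fintype.card ι) * r ^ (e d) := by ring
    exact le_of_mul_le_mul_right h10 hrd
  have h8 : ‖a ω d * w ^ (e d)‖ / 2 ≤ ‖G e (a ω) w‖ := by
    unfold G
    rw [← Finset.add_sum_erase _ _ (Finset.mem_univ d)]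
    have h9 : ‖∑ k ∈ Finset.univ.erase d, a ω k * w ^ (e k)‖ ≤ ‖a ω d * w ^ (e d)‖ / 2 := by
      calc ‖∑ k ∈ Finset.univ.erase d, a ω k * w ^ (e k)‖
          ≤ ∑ k ∈ Finset.univ.erase d, ‖a ω k * w ^ (e k)‖ := norm_sum_le _ _
        _ ≤ ∑ _k ∈ Finset.univ.erase d, ‖a ω d * w ^ (e d)‖ / (2 * Fintype.card ι) :=
            Finset.sum_le_sum fun k hk => h7 k (Finset.ne_of_mem_erase hk)
        _ ≤ ∑ _k : ι, ‖a ω d * w ^ (e d)‖ / (2 * Fintype.card ι) := by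
            apply Finset.sum_le_sum_of_subset_of_nonneg (Finset.erase_subset _ _)
            intro i _ _
            positivity
        _ = ‖a ω d * w ^ (e d)‖ / 2 := by
            rw [Finset.sum_const, Finset.card_univ, nsmul_eq_mul]
            field_simp
    have h10 := norm_sub_norm_le (a ω d * w ^ (e d))
      (-(∑ k ∈ Finset.univ.erase d, a ω k * w ^ (e k)))
    rw [norm_neg, sub_neg_eq_add] at h10
    linarith
  linarith

/-- the comap trick: a statement along all families is a uniform statement -/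
lemma eventually_forall_of {P : Ω → ℂ → Prop} {Q : Ω → ℂ → Prop}
    (h : ∀ᶠ p in comap (Prod.fst : Ω × ℂ → Ω) l ⊓ 𝓟 {p | P p.1 p.2}, Q p.1 p.2) :
    ∀ᶠ ω in l, ∀ w, P ω w → Q ω w := by
  rw [eventually_inf_principal, eventually_comap] at h
  filter_upwards [h] with ω hω w hw
  exact hω (ω, w) rfl hw

lemma sz_fst (ha : ∀ i, Sz l t (fun ω => a ω i) (α i)) {P : Ω × ℂ → Prop} (i : ι) :
    Sz (comap (Prod.fst : Ω × ℂ → Ω) l ⊓ 𝓟 {p | P p}) (fun p => t p.1)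
      (fun p => a p.1 i) (α i) := by
  have hmap : Tendsto Prod.fst (comap (Prod.fst : Ω × ℂ → Ω) l ⊓ 𝓟 {p | P p}) l :=
    tendsto_comap.mono_left inf_le_left
  exact ⟨hmap.eventually (ha i).1, (ha i).2.comp hmap⟩

/-- a neighbourhood of the constant term returns deeply into itself -/
lemma return_ball (ht : Tendsto t l atTop) (ha : ∀ i, Sz l t (fun ω => a ω i) (α i))
    (he : Function.Injective e) {i₀ : ι} (hi₀ : e i₀ = 0)
    (hy : ∀ (m : ℕ) (k j : ι), (F e α)^[m] (α i₀) ≠ xx e k j α) {N : ℕ}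
    (hN : OP e α ((F e α)^[N] (α i₀))) :
    ∀ᶠ ω in l, ∀ w : ℂ, ‖w - a ω i₀‖ ≤ ‖a ω i₀‖ / 2 →
      (∀ k ≤ N, (G e (a ω))^[k] w ≠ 0) ∧
        ‖(G e (a ω))^[N + 1] w - a ω i₀‖ ≤ ‖a ω i₀‖ / 100 := by
  apply eventually_forall_of (P := fun ω w => ‖w - a ω i₀‖ ≤ ‖a ω i₀‖ / 2)
    (Q := fun ω w => (∀ k ≤ N, (G e (a ω))^[k] w ≠ 0) ∧
        ‖(G e (a ω))^[N + 1] w - a ω i₀‖ ≤ ‖a ω i₀‖ / 100)
  set l' : Filter (Ω × ℂ) := comap Prod.fst l ⊓ 𝓟 {p | ‖p.2 - a p.1 i₀‖ ≤ ‖a p.1 i₀‖ / 2} with hl'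
  have hmap : Tendsto Prod.fst l' l := tendsto_comap.mono_left inf_le_left
  have hmem : ∀ᶠ p in l', ‖p.2 - a p.1 i₀‖ ≤ ‖a p.1 i₀‖ / 2 := by
    have : {p : Ω × ℂ | ‖p.2 - a p.1 i₀‖ ≤ ‖a p.1 i₀‖ / 2} ∈ l' :=
      mem_inf_of_right (mem_principal_self _)
    exact this
  have ht' : Tendsto (fun p : Ω × ℂ => t p.1) l' atTop := ht.comp hmap
  have ha' : ∀ i, Sz l' (fun p : Ω × ℂ => t p.1) (fun p => a p.1 i) (α i) := fun i =>
    sz_fst ha i
  have hw : Sz l' (fun p : Ω × ℂ => t p.1) (fun p => p.2) (α i₀) := by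
    have hlow : ∀ p : Ω × ℂ, ‖p.2 - a p.1 i₀‖ ≤ ‖a p.1 i₀‖ / 2 → ‖a p.1 i₀‖ / 2 ≤ ‖p.2‖ := by
      intro p hp
      have := norm_sub_norm_le (a p.1 i₀) p.2
      rw [norm_sub_rev] at this
      linarith
    have hhigh : ∀ p : Ω × ℂ, ‖p.2 - a p.1 i₀‖ ≤ ‖a p.1 i₀‖ / 2 → ‖p.2‖ ≤ 2 * ‖a p.1 i₀‖ := by
      intro p hp
      have h1 := norm_sub_norm_le p.2 (a p.1 i₀)
      have h2 := norm_nonneg (a p.1 i₀)
      linarith
    constructor
    · filter_upwards [hmem, (ha' i₀).1] with p h1 h2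
      have h3 := hlow p h1
      have h4 := norm_pos_iff.2 h2
      exact norm_pos_iff.1 (by linarith)
    · have hz : Tendsto (fun p : Ω × ℂ => Real.log 2 / t p.1) l' (𝓝 0) :=
        Tendsto.div_atTop tendsto_const_nhds ht'
      have h1 := (ha' i₀).2.sub hz
      have h2 := (ha' i₀).2.add hz
      rw [sub_zero] at h1
      rw [add_zero] at h2
      refine tendsto_of_tendsto_of_tendsto_of_le_of_le' h1 h2 ?_ ?_
      · filter_upwards [hmem, (ha' i₀).1, ht'.eventually_gt_atTop 0] with p h3 h4 h5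
        have h6 := norm_pos_iff.2 h4
        rw [← sub_div, ← Real.log_div h6.ne' (by norm_num)]
        exact div_le_div_of_nonneg_right (Real.log_le_log (by linarith) (hlow p h3)) h5.le
      · filter_upwards [hmem, (ha' i₀).1, ht'.eventually_gt_atTop 0] with p h3 h4 h5
        have h6 := norm_pos_iff.2 h4
        rw [← add_div, ← Real.log_mul h6.ne' (by norm_num)]
        have h7 := hlow p h3
        refine div_le_div_of_nonneg_right (Real.log_le_log (by linarith) ?_) h5.le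
        rw [mul_comm]
        exact hhigh p h3
  have horb := orbit (e := e) ht' ha' hw he hy
  have h1 : ∀ᶠ p in l', ∀ k : Fin (N + 1), (G e (a p.1))^[(k : ℕ)] p.2 ≠ 0 := by
    rw [Filter.eventually_all]
    intro k
    exact (horb k).1
  have h2 := step_const ht' ha' (horb N) he hi₀ hN
  have h3 : ∀ᶠ p in l', ‖G e (a p.1) ((G e (a p.1))^[N] p.2) / a p.1 i₀ - 1‖ < 1 / 100 := by
    have h4 := (tendsto_iff_norm_sub_tendsto_zero.1 h2)
    exact h4.eventually_lt_const (by norm_num)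
  filter_upwards [h1, h3, (ha' i₀).1] with p h4 h5 h6
  refine ⟨fun k hk => h4 ⟨k, by omega⟩, ?_⟩
  have h7 := norm_pos_iff.2 h6
  rw [Function.iterate_succ_apply']
  have e1 : G e (a p.1) ((G e (a p.1))^[N] p.2) - a p.1 i₀ =
      (G e (a p.1) ((G e (a p.1))^[N] p.2) / a p.1 i₀ - 1) * a p.1 i₀ := by
    field_simp
  rw [e1, norm_mul]
  nlinarith

end Pool.Agent.K3h63.LT
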