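import Mathlib
import Pool.Agent.K3h63.LT.Lim

/-!
# The critical values of a Laurent polynomial with coefficients of generic logarithmic size
-/

set_option autoImplicit false

open Filter Topology MeasureTheory Polynomial

set_option linter.unusedSectionVars false

namespace Pool.Agent.K3h63.LT

open Pool.Agent.TH639.LS (Sz Sz.mul Sz.const_mul Sz.ratio Sz.sum Sz.const)

variable {Ω ι : Type*} [Fintype ι] [Nonempty ι] {e : ι → ℤ} {l : Filter Ω} {t : Ω → ℝ}
  {a : Ω → ι → ℂ} {α : ι → ℝ}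

/-- the constant in the comparison of the two dominant terms -/
noncomputable def KK (e : ι → ℤ) : ℝ := (Fintype.card ι : ℝ) * ∑ k, |(e k : ℝ)|

/-- `c` is a critical point whose dominant terms are the `i`-th and the `j`-th one -/
def Dom (e : ι → ℤ) (a : ι → ℂ) (i j : ι) (c : ℂ) : Prop :=
  c ≠ 0 ∧ ∑ k, (e k : ℂ) * (a k * c ^ (e k)) = 0 ∧
    (∀ k, e k ≠ 0 → ‖a k * c ^ (e k)‖ ≤ ‖a j * c ^ (e j)‖) ∧
    ‖a j * c ^ (e j)‖ ≤ KK e * ‖a i * c ^ (e i)‖

lemma one_le_abs {n : ℤ} (h : n ≠ 0) : (1 : ℝ) ≤ |(n : ℝ)| := by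
  have : (1 : ℤ) ≤ |n| := Int.one_le_abs h
  have h2 : ((1 : ℤ) : ℝ) ≤ ((|n| : ℤ) : ℝ) := by exact_mod_cast this
  rwa [Int.cast_abs, Int.cast_one] at h2

lemma exists_dom {a : ι → ℂ} (ha : ∀ i, a i ≠ 0) (hex : ∃ k, e k ≠ 0) {c : ℂ} (hc : c ≠ 0)
    (hcr : ∑ k, (e k : ℂ) * (a k * c ^ (e k)) = 0) :
    ∃ i j : ι, i ≠ j ∧ e i ≠ 0 ∧ e j ≠ 0 ∧ Dom e a i j c := by
  classical
  set u : ι → ℂ := fun k => a k * c ^ (e k) with hu
  have hu0 : ∀ k, 0 < ‖u k‖ := fun k => norm_pos_iff.2 (mul_ne_zero (ha k) (zpow_ne_zero _ hc))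
  have hsum : ∑ k, (e k : ℂ) * u k = 0 := hcr
  -- the largest term among those with nonzero exponent
  have hne : (Finset.univ.filter fun k => e k ≠ 0).Nonempty := by
    obtain ⟨k, hk⟩ := hex
    exact ⟨k, by simp [hk]⟩
  obtain ⟨j, hj, hjmax⟩ := Finset.exists_max_image _ (fun k => ‖u k‖) hne
  rw [Finset.mem_filter] at hj
  have hj1 : (1 : ℝ) ≤ |(e j : ℝ)| := one_le_abs hj.2
  have hnorm : ∀ n : ℤ, ‖(n : ℂ)‖ = |(n : ℝ)| := fun n => Complex.norm_intCast n
  have h1 : (e j : ℂ) * u j = -∑ k ∈ Finset.univ.erase j, (e k : ℂ) * u k := by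
    rw [← Finset.add_sum_erase _ _ (Finset.mem_univ j)] at hsum
    exact eq_neg_of_add_eq_zero_left hsum
  have h2 : |(e j : ℝ)| * ‖u j‖ ≤ ∑ k ∈ Finset.univ.erase j, |(e k : ℝ)| * ‖u k‖ := by
    have : |(e j : ℝ)| * ‖u j‖ = ‖(e j : ℂ) * u j‖ := by
      rw [norm_mul (e j : ℂ) (u j), hnorm]
    rw [this, h1, norm_neg]
    refine (norm_sum_le _ _).trans (le_of_eq ?_)
    refine Finset.sum_congr rfl fun k _ => ?_
    rw [norm_mul, hnorm]
  have hpos : 0 < |(e j : ℝ)| * ‖u j‖ := mul_pos (by linarith) (hu0 j)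
  have hne2 : (Finset.univ.erase j).Nonempty := by
    rw [Finset.nonempty_iff_ne_empty]
    intro h
    rw [h, Finset.sum_empty] at h2
    linarith
  obtain ⟨i, hi, himax⟩ := Finset.exists_max_image _ (fun k => |(e k : ℝ)| * ‖u k‖) hne2
  have h3 : ∑ k ∈ Finset.univ.erase j, |(e k : ℝ)| * ‖u k‖ ≤
      (Fintype.card ι : ℝ) * (|(e i : ℝ)| * ‖u i‖) := by
    refine (Finset.sum_le_card_nsmul _ _ _ himax).trans ?_
    rw [nsmul_eq_mul]
    gcongr
    exact Finset.card_le_univ _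
  have hi1 : e i ≠ 0 := by
    intro h
    rw [h] at h3
    simp only [Int.cast_zero, abs_zero, zero_mul, mul_zero] at h3
    linarith
  refine ⟨i, j, Finset.ne_of_mem_erase hi, hi1, hj.2, hc, hcr, ?_, ?_⟩
  · intro k hk
    exact hjmax k (by simp [hk])
  · have h4 : |(e i : ℝ)| ≤ ∑ k, |(e k : ℝ)| :=
      Finset.single_le_sum (f := fun k => |(e k : ℝ)|) (fun k _ => abs_nonneg _)
        (Finset.mem_univ i)
    calc ‖u j‖ ≤ |(e j : ℝ)| * ‖u j‖ := le_mul_of_one_le_left (hu0 j).le hj1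
      _ ≤ (Fintype.card ι : ℝ) * (|(e i : ℝ)| * ‖u i‖) := h2.trans h3
      _ ≤ (Fintype.card ι : ℝ) * ((∑ k, |(e k : ℝ)|) * ‖u i‖) := by
          gcongr
      _ = KK e * ‖a i * c ^ (e i)‖ := by rw [KK]; ring

/-- the size of the critical points -/
lemma size_crit [l.NeBot] (ht : Tendsto t l atTop) (ha : ∀ i, Sz l t (fun ω => a ω i) (α i))
    {c : Ω → ℂ} {i j : ι} (hij : e i ≠ e j) (hi0 : e i ≠ 0)
    (hdom : ∀ᶠ ω in l, Dom e (a ω) i j (c ω)) :
    Sz l t c (xx e i j α) := by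
  have hK : 0 < KK e ∨ KK e = 0 := by
    have h0 : 0 ≤ KK e := by unfold KK; positivity
    exact (lt_or_eq_of_le h0).imp id Eq.symm
  have hne0 : ∀ᶠ ω in l, c ω ≠ 0 := hdom.mono fun ω h => h.1
  refine ⟨hne0, ?_⟩
  have hK0 : 0 < KK e := by
    rcases hK with h | h
    · exact h
    · exfalso
      obtain ⟨ω, h1, h2⟩ := (hdom.and (ha j).1).exists
      have h3 := h1.2.2.2
      rw [h, zero_mul] at h3
      have h4 : 0 < ‖a ω j * c ω ^ (e j)‖ := norm_pos_iff.2 (mul_ne_zero h2 (zpow_ne_zero _ h1.1))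
      linarith
  have hij' : (e j : ℝ) - e i ≠ 0 := by
    intro h
    apply hij
    have : (e i : ℝ) = e j := by linarith
    exact_mod_cast this
  -- the difference of the logarithms of the two terms
  set D : Ω → ℝ := fun ω => (Real.log ‖a ω j‖ / t ω - Real.log ‖a ω i‖ / t ω) +
    ((e j : ℝ) - e i) * (Real.log ‖c ω‖ / t ω) with hD
  have hD0 : Tendsto D l (𝓝 0) := by
    have h1 : ∀ᶠ ω in l, 0 ≤ D ω ∧ D ω ≤ Real.log (KK e) / t ω := by
      filter_upwards [hdom, (ha i).1, (ha j).1, ht.eventually_gt_atTop 0] with ω h2 h3 h4 h5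
      obtain ⟨h6, h7, h8, h9⟩ := h2
      have hci := norm_pos_iff.2 h6
      have e1 : ∀ k, a ω k ≠ 0 → Real.log ‖a ω k * c ω ^ (e k)‖ =
          Real.log ‖a ω k‖ + (e k : ℝ) * Real.log ‖c ω‖ := by
        intro k hk
        rw [norm_mul, norm_zpow, Real.log_mul (norm_ne_zero_iff.2 hk) (zpow_ne_zero _ hci.ne'),
          Real.log_zpow]
      have e2 : D ω = (Real.log ‖a ω j * c ω ^ (e j)‖ - Real.log ‖a ω i * c ω ^ (e i)‖) / t ω := by
        rw [e1 _ h3, e1 _ h4, hD]
        simp only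
        field_simp
        ring
      have hip : 0 < ‖a ω i * c ω ^ (e i)‖ := norm_pos_iff.2 (mul_ne_zero h3 (zpow_ne_zero _ h6))
      have hjp : 0 < ‖a ω j * c ω ^ (e j)‖ := norm_pos_iff.2 (mul_ne_zero h4 (zpow_ne_zero _ h6))
      rw [e2]
      constructor
      · apply div_nonneg _ h5.le
        rw [sub_nonneg]
        exact Real.log_le_log hip (h8 i hi0)
      · apply div_le_div_of_nonneg_right _ h5.le
        have := Real.log_le_log hjp h9
        rw [Real.log_mul hK0.ne' hip.ne'] at this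
        linarith
    have h2 : Tendsto (fun ω => Real.log (KK e) / t ω) l (𝓝 0) :=
      Tendsto.div_atTop tendsto_const_nhds ht
    exact tendsto_of_tendsto_of_tendsto_of_le_of_le' tendsto_const_nhds h2
      (h1.mono fun ω h => h.1) (h1.mono fun ω h => h.2)
  have h3 : Tendsto (fun ω => (D ω - (Real.log ‖a ω j‖ / t ω - Real.log ‖a ω i‖ / t ω)) /
      ((e j : ℝ) - e i)) l (𝓝 ((0 - (α j - α i)) / ((e j : ℝ) - e i))) :=
    (hD0.sub ((ha j).2.sub (ha i).2)).div_const _
  have e3 : (0 - (α j - α i)) / ((e j : ℝ) - e i) = xx e i j α := by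
    unfold xx; congr 1; ring
  rw [e3] at h3
  refine h3.congr ?_
  intro ω
  rw [hD]
  simp only
  rw [add_sub_cancel_left, mul_div_cancel_left₀ _ hij']

/-- the size of the critical values -/
lemma size_value [l.NeBot] (ht : Tendsto t l atTop) (ha : ∀ i, Sz l t (fun ω => a ω i) (α i))
    (he : Function.Injective e) (hcol : ∀ i j k, i ≠ j → i ≠ k → j ≠ k →
      α i * ((e j : ℝ) - e k) + α j * ((e k : ℝ) - e i) + α k * ((e i : ℝ) - e j) ≠ 0)
    {c : Ω → ℂ} {i j : ι} (hij : i ≠ j) (hi : e i ≠ 0) (hj : e j ≠ 0)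
    (hdom : ∀ᶠ ω in l, Dom e (a ω) i j (c ω)) :
    Sz l t (fun ω => G e (a ω) (c ω)) (F e α (xx e i j α)) := by
  have hc := size_crit ht ha (fun h => hij (he h)) hi hdom
  set x := xx e i j α with hx
  have hij' : (e j : ℝ) - e i ≠ 0 := by
    intro h
    apply hij
    apply he
    have : (e i : ℝ) = e j := by linarith
    exact_mod_cast this
  have hw : α i + (e i : ℝ) * x = α j + (e j : ℝ) * x := by
    have h1 : x * ((e j : ℝ) - e i) = α i - α j := by
      rw [hx, xx, div_mul_cancel₀ _ hij']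
    linarith
  have hterm : ∀ k, Sz l t (fun ω => a ω k * c ω ^ (e k)) (α k + (e k : ℝ) * x) :=
    fun k => Sz.mul (ha k) (Sz.zpow hc (e k))
  have hle : ∀ k, e k ≠ 0 → α k + (e k : ℝ) * x ≤ α j + (e j : ℝ) * x := by
    intro k hk
    refine le_of_tendsto_of_tendsto (hterm k).2 (hterm j).2 ?_
    filter_upwards [hdom, (hterm k).1, ht.eventually_gt_atTop 0] with ω h1 h2 h3
    apply div_le_div_of_nonneg_right _ h3.le
    exact Real.log_le_log (norm_pos_iff.2 h2) (h1.2.2.1 k hk)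
  have hej : (e j : ℂ) ≠ 0 := by exact_mod_cast hj
  set b : ι → ℂ := fun k => 1 - (e k : ℂ) / (e j : ℂ) with hb
  have hbj : b j = 0 := by rw [hb]; simp only; rw [div_self hej, sub_self]
  have hbk : ∀ k, k ≠ j → b k ≠ 0 := by
    intro k hk h
    apply hk
    apply he
    have h1 : (e k : ℂ) / (e j : ℂ) = 1 := (sub_eq_zero.1 h).symm
    rw [div_eq_one_iff_eq hej] at h1
    exact_mod_cast h1
  have hval : ∀ᶠ ω in l, G e (a ω) (c ω) = ∑ k, b k * (a ω k * c ω ^ (e k)) := by
    filter_upwards [hdom] with ω h1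
    unfold G
    simp only [hb, sub_mul, one_mul, Finset.sum_sub_distrib]
    have h3 : ∑ k, (e k : ℂ) / (e j : ℂ) * (a ω k * c ω ^ (e k)) =
        (∑ k, (e k : ℂ) * (a ω k * c ω ^ (e k))) / (e j : ℂ) := by
      rw [Finset.sum_div]
      refine Finset.sum_congr rfl fun k _ => ?_
      ring
    rw [h3, h1.2.1, zero_div, sub_zero]
  -- the size of the sum
  have hS : Sz l t (fun ω => ∑ k, b k * (a ω k * c ω ^ (e k))) (F e α x) := by
    obtain ⟨m₀, hm₀⟩ := exists_eq_F (e := e) α x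
    by_cases hcase : F e α x = α j + (e j : ℝ) * x
    · have hbi : Sz l t (fun ω => b i * (a ω i * c ω ^ (e i))) (F e α x) := by
        have := Sz.const_mul ht (hbk i hij) (hterm i)
        rwa [hw, ← hcase] at this
      refine Sz.sum (u := fun k ω => b k * (a ω k * c ω ^ (e k))) ht hbi ?_
      intro k hk
      by_cases hkj : k = j
      · simp only [hkj, hbj, zero_mul, zero_div]
        exact tendsto_const_nhds
      · refine Sz.ratio ht (Sz.const_mul ht (hbk k hkj) (hterm k)) hbi ?_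
        refine lt_of_le_of_ne (le_F α x k) ?_
        intro h
        apply hcol i j k hij (Ne.symm hk) (Ne.symm hkj)
        rw [hcase] at h
        have h1 : α k = α j + (e j : ℝ) * x - (e k : ℝ) * x := by linarith
        have h2 : α i = α j + (e j : ℝ) * x - (e i : ℝ) * x := by linarith
        rw [h1, h2]
        ring
    · have hlt : α j + (e j : ℝ) * x < F e α x := lt_of_le_of_ne (le_F α x j) (Ne.symm hcase)
      have hem : e m₀ = 0 := by
        by_contra h
        have := hle m₀ h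
        rw [← hm₀] at this
        linarith
      have hmj : m₀ ≠ j := by
        intro h
        rw [h] at hem
        exact hj hem
      have hbm : Sz l t (fun ω => b m₀ * (a ω m₀ * c ω ^ (e m₀))) (F e α x) := by
        have := Sz.const_mul ht (hbk m₀ hmj) (hterm m₀)
        rwa [← hm₀] at this
      refine Sz.sum (u := fun k ω => b k * (a ω k * c ω ^ (e k))) ht hbm ?_
      intro k hk
      by_cases hkj : k = j
      · simp only [hkj, hbj, zero_mul, zero_div]
        exact tendsto_const_nhds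
      · refine Sz.ratio ht (Sz.const_mul ht (hbk k hkj) (hterm k)) hbm ?_
        have hek : e k ≠ 0 := by
          intro h
          apply hk
          apply he
          rw [h, hem]
        exact lt_of_le_of_lt (hle k hek) hlt
  refine ⟨?_, hS.2.congr' ?_⟩
  · filter_upwards [hval, hS.1] with ω h1 h2
    rw [h1]; exact h2
  · filter_upwards [hval] with ω h1
    rw [h1]

end Pool.Agent.K3h63.LT
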