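import Mathlib
import Pool.Agent.K3h63.LT.Crit

/-!
# Laurent polynomials with coefficients of generic logarithmic size: the certificate
-/

set_option autoImplicit false

open Filter Topology MeasureTheory

set_option linter.unusedSectionVars false

namespace Pool.Agent.K3h63.LT

open Pool.Agent.TH639.LS (Sz Sz.mul Sz.const_mul Sz.ratio Sz.sum Sz.const)

variable {Ω ι : Type*} [Fintype ι] [Nonempty ι] {e : ι → ℤ} {l : Filter Ω} {t : Ω → ℝ}
  {a : Ω → ι → ℂ} {α : ι → ℝ}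

/-- the disc of radius `|a i₀| / 2` about `a i₀` returns deeply to itself at the time `N + 1` -/
def Ret (e : ι → ℤ) (N : ℕ) (a : ι → ℂ) (i₀ : ι) : Prop :=
  ∀ w : ℂ, ‖w - a i₀‖ ≤ ‖a i₀‖ / 2 → (∀ k ≤ N, (G e a)^[k] w ≠ 0) ∧
        ‖(G e a)^[N + 1] w - a i₀‖ ≤ ‖a i₀‖ / 100

/-- the two possible fates of a point -/
def Alt (e : ι → ℤ) (N : ℕ) (R : ℝ) (a : ι → ℂ) (c : ℂ) : Prop :=
  (∃ m : ℕ, (∀ k < m, (G e a)^[k] c ≠ 0) ∧ R ≤ ‖(G e a)^[m] c‖) ∨
  (∃ i₀, e i₀ = 0 ∧ a i₀ ≠ 0 ∧ Ret e N a i₀ ∧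
      ∃ m : ℕ, (∀ k < m, (G e a)^[k] c ≠ 0) ∧ ‖(G e a)^[m] c - a i₀‖ < ‖a i₀‖ / 2)

/-- the certificate for hyperbolicity -/
def Good (e : ι → ℤ) (N : ℕ) (a : ι → ℂ) : Prop :=
  ∃ R : ℝ, 0 < R ∧ (∀ w, R ≤ ‖w‖ → 2 * ‖w‖ ≤ ‖G e a w‖) ∧
   ∀ c : ℂ, c ≠ 0 → ∑ k, (e k : ℂ) * (a k * c ^ (e k)) = 0 → Alt e N R a c

theorem eventually_good (ht : Tendsto t l atTop) (ha : ∀ i, Sz l t (fun ω => a ω i) (α i))
    (he : Function.Injective e) {d : ι} (hd : 2 ≤ e d) (hmax : ∀ k, k ≠ d → e k < e d)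
    (hg : Gen e d α) (hT : Tame e α) : ∃ N : ℕ, ∀ᶠ ω in l, Good e N (a ω) := by
  classical
  obtain ⟨X, hX⟩ := escape (e := e) ht ha hd hmax
  obtain ⟨N, hN⟩ : ∃ N : ℕ, ∀ i₀, e i₀ = 0 → (∃ N' : ℕ, OP e α ((F e α)^[N'] (α i₀))) →
      OP e α ((F e α)^[N] (α i₀)) := by
    by_cases hR : ∃ (i₀ : ι) (N : ℕ), e i₀ = 0 ∧ OP e α ((F e α)^[N] (α i₀))
    · obtain ⟨i₁, N₁, h0, h1⟩ := hR
      refine ⟨N₁, fun i₀ hi₀ _ => ?_⟩
      rw [he (hi₀.trans h0.symm)]
      exact h1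
    · refine ⟨0, fun i₀ hi₀ h => ?_⟩
      obtain ⟨N', h⟩ := h
      exact absurd ⟨i₀, N', hi₀, h⟩ hR
  refine ⟨N, ?_⟩
  have hpair : ∀ p : ι × ι, ∀ᶠ ω in l, p.1 ≠ p.2 → e p.1 ≠ 0 → e p.2 ≠ 0 → ∀ c : ℂ,
      Dom e (a ω) p.1 p.2 c → Alt e N (Real.exp (t ω * X)) (a ω) c := by
    rintro ⟨i, j⟩
    simp only
    by_cases hij : i ≠ j
    swap
    · exact Eventually.of_forall fun ω h => absurd h hij
    by_cases hi : e i ≠ 0
    swap
    · exact Eventually.of_forall fun ω _ h => absurd h hi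
    by_cases hj : e j ≠ 0
    swap
    · exact Eventually.of_forall fun ω _ _ h => absurd h hj
    have key : ∀ᶠ ω in l, ∀ c : ℂ, Dom e (a ω) i j c → Alt e N (Real.exp (t ω * X)) (a ω) c := by
      apply eventually_forall_of (P := fun ω c => Dom e (a ω) i j c)
        (Q := fun ω c => Alt e N (Real.exp (t ω * X)) (a ω) c)
      set l' : Filter (Ω × ℂ) := comap Prod.fst l ⊓ 𝓟 {p | Dom e (a p.1) i j p.2} with hl'
      have hmap : Tendsto Prod.fst l' l := tendsto_comap.mono_left inf_le_left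
      have hdom : ∀ᶠ p in l', Dom e (a p.1) i j p.2 := by
        have : {p : Ω × ℂ | Dom e (a p.1) i j p.2} ∈ l' := mem_inf_of_right (mem_principal_self _)
        exact this
      rcases l'.eq_or_neBot with hbot | hbot
      · rw [hbot]; exact eventually_bot
      · have ht' : Tendsto (fun p : Ω × ℂ => t p.1) l' atTop := ht.comp hmap
        have ha' : ∀ i, Sz l' (fun p : Ω × ℂ => t p.1) (fun p => a p.1 i) (α i) := fun i =>
          sz_fst ha i
        have hv := size_value ht' ha' he hg.col hij hi hj hdom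
        have horb := orbit (e := e) ht' ha' hv he (hg.avoid' hT (Sum.inr (i, j)))
        have hnz : ∀ m : ℕ, ∀ᶠ p in l', ∀ k < m, (G e (a p.1))^[k] p.2 ≠ 0 := by
          intro m
          have h1 : ∀ᶠ p in l', ∀ k : Fin m, (G e (a p.1))^[(k : ℕ)] (G e (a p.1) p.2) ≠ 0 := by
            rw [Filter.eventually_all]
            intro k
            exact (horb k).1
          filter_upwards [h1, hdom] with p h2 h3 k hk
          rcases k with _ | k
          · exact h3.1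
          · rw [Function.iterate_succ_apply]
            exact h2 ⟨k, by omega⟩
        rcases fate_trop2 hd hg hT (Sum.inr (i, j)) with h | ⟨i₀, hi₀, hN', m, hm⟩
        · obtain ⟨m, hm⟩ := (h.eventually_gt_atTop X).exists
          have h3 := (horb m).2.eventually_const_lt hm
          filter_upwards [hnz (m + 1), (horb m).1, h3, ht'.eventually_gt_atTop 0]
            with p h4 h5 h6 h7
          left
          refine ⟨m + 1, h4, ?_⟩
          rw [Function.iterate_succ_apply]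
          rw [lt_div_iff₀ h7] at h6
          have h8 := Real.exp_le_exp.2 h6.le
          rwa [Real.exp_log (norm_pos_iff.2 h5), mul_comm X] at h8
        · have hNN := hN i₀ hi₀ hN'
          have hret := return_ball (e := e) ht ha he hi₀ (hg.avoid' hT (Sum.inl i₀)) hNN
          have h2 := step_const (e := e) ht' ha' (horb m) he hi₀ hm
          have h3 : ∀ᶠ p in l', ‖G e (a p.1) ((G e (a p.1))^[m] (G e (a p.1) p.2)) / a p.1 i₀ - 1‖ <
              1 / 2 :=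
            (tendsto_iff_norm_sub_tendsto_zero.1 h2).eventually_lt_const (by norm_num)
          filter_upwards [hnz (m + 2), hmap.eventually hret, h3, (ha' i₀).1] with p h4 h5 h6 h7
          right
          refine ⟨i₀, hi₀, h7, h5, m + 2, h4, ?_⟩
          have h8 := norm_pos_iff.2 h7
          have e0 : (G e (a p.1))^[m + 2] p.2 =
              G e (a p.1) ((G e (a p.1))^[m] (G e (a p.1) p.2)) := by
            rw [show m + 2 = (m + 1) + 1 from rfl, Function.iterate_succ_apply,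
              Function.iterate_succ_apply']
          rw [e0]
          have e1 : G e (a p.1) ((G e (a p.1))^[m] (G e (a p.1) p.2)) - a p.1 i₀ =
              (G e (a p.1) ((G e (a p.1))^[m] (G e (a p.1) p.2)) / a p.1 i₀ - 1) * a p.1 i₀ := by
            field_simp
          rw [e1, norm_mul]
          nlinarith
    filter_upwards [key] with ω hω _ _ _ c hc
    exact hω c hc
  have hpair' := (Filter.eventually_all).2 hpair
  have hne : ∀ᶠ ω in l, ∀ i, a ω i ≠ 0 := (Filter.eventually_all).2 fun i => (ha i).1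
  filter_upwards [hX, hpair', hne] with ω h1 h2 h3
  refine ⟨Real.exp (t ω * X), Real.exp_pos _, h1, fun c hc0 hc => ?_⟩
  obtain ⟨i, j, hij, hi, hj, hdom⟩ := exists_dom (e := e) h3 ⟨d, by omega⟩ hc0 hc
  exact h2 (i, j) hij hi hj c hdom

/-- the statement with `δ` and `t₀` -/
theorem dir (he : Function.Injective e) {d : ι} (hd : 2 ≤ e d) (hmax : ∀ k, k ≠ d → e k < e d)
    (hg : Gen e d α) (hT : Tame e α) :
    ∃ N : ℕ, ∃ δ : ℝ, 0 < δ ∧ ∃ t₀ : ℝ, ∀ t : ℝ, t₀ ≤ t → ∀ a : ι → ℂ,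
      (∀ i, a i ≠ 0) → (∀ i, |Real.log ‖a i‖ - t * α i| ≤ δ * t) → Good e N a := by
  have hnz : ∀ᶠ ω in ((comap Prod.fst atTop ⊓ comap (fun ω : ℝ × (ι → ℂ) => fun i =>
      Real.log ‖ω.2 i‖ / ω.1) (𝓝 α)) ⊓ 𝓟 {ω : ℝ × (ι → ℂ) | ∀ i, ω.2 i ≠ 0}),
      ∀ i, ω.2 i ≠ 0 := mem_inf_of_right (mem_principal_self _)
  have ht : Tendsto (fun ω : ℝ × (ι → ℂ) => ω.1) ((comap Prod.fst atTop ⊓
      comap (fun ω : ℝ × (ι → ℂ) => fun i =>
      Real.log ‖ω.2 i‖ / ω.1) (𝓝 α)) ⊓ 𝓟 {ω : ℝ × (ι → ℂ) | ∀ i, ω.2 i ≠ 0}) atTop :=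
    tendsto_comap.mono_left (inf_le_left.trans inf_le_left)
  have hgt : Tendsto (fun ω : ℝ × (ι → ℂ) => fun i =>
      Real.log ‖ω.2 i‖ / ω.1) ((comap Prod.fst atTop ⊓
      comap (fun ω : ℝ × (ι → ℂ) => fun i =>
      Real.log ‖ω.2 i‖ / ω.1) (𝓝 α)) ⊓ 𝓟 {ω : ℝ × (ι → ℂ) | ∀ i, ω.2 i ≠ 0}) (𝓝 α) :=
    tendsto_comap.mono_left (inf_le_left.trans inf_le_right)
  obtain ⟨N, key⟩ := eventually_good (e := e) (a := fun ω : ℝ × (ι → ℂ) => ω.2) ht
    (fun i => ⟨hnz.mono fun ω h => h i, (tendsto_pi_nhds.1 hgt) i⟩) he hd hmax hg hT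
  refine ⟨N, ?_⟩
  rw [eventually_inf_principal] at key
  have hbasis := ((atTop_basis (α := ℝ)).comap (Prod.fst (α := ℝ) (β := ι → ℂ))).inf
    ((Metric.nhds_basis_closedBall (x := α)).comap (fun ω : ℝ × (ι → ℂ) => fun i =>
      Real.log ‖ω.2 i‖ / ω.1))
  obtain ⟨⟨t₀, δ⟩, ⟨-, hδ⟩, hp⟩ := hbasis.eventually_iff.1 key
  simp only at hδ hp
  refine ⟨δ, hδ, max t₀ 1, fun t htt a ha0 haδ => ?_⟩
  have ht0 : 0 < t := lt_of_lt_of_le one_pos ((le_max_right _ _).trans htt)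
  refine hp (x := (t, a)) ⟨(le_max_left _ _).trans htt, ?_⟩ ha0
  rw [Set.mem_preimage, Metric.mem_closedBall, dist_pi_le_iff hδ.le]
  intro i
  rw [Real.dist_eq]
  have e1 : Real.log ‖a i‖ / t - α i = (Real.log ‖a i‖ - t * α i) / t := by field_simp
  rw [e1, abs_div, abs_of_pos ht0, div_le_iff₀ ht0]
  exact haδ i

end Pool.Agent.K3h63.LT
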