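import Mathlib
import Pool.Agent.K3h63.LT.Good

/-!
# From the certificate to the dynamics on the sphere
-/

set_option autoImplicit false

open Filter Topology Set Metric
open scoped OnePoint

set_option linter.unusedSectionVars false

namespace Pool.Agent.K3h63.LT

/-- a holomorphic map which sends a disc deeply into itself has an attracting fixed point -/
lemma attr {g : ℂ → ℂ} {a : ℂ} {r : ℝ} (hr : 0 < r) (hg : DifferentiableOn ℂ g (ball a r))
    (hm : ∀ w, ‖w - a‖ < r → ‖g w - a‖ ≤ r / 50) :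
    ∃ z, ‖z - a‖ < r ∧ g z = z ∧ ∀ w, ‖w - a‖ < r →
      Tendsto (fun n : ℕ => g^[n] w) atTop (𝓝 z) := by
  set K : Set ℂ := closedBall a (r / 50) with hK
  have hKr : ∀ w ∈ K, ‖w - a‖ ≤ r / 50 := by
    intro w hw
    rw [← dist_eq_norm]
    exact hw
  have hlip : ∀ c ∈ K, ∀ z ∈ K, dist (g z) (g c) ≤ 1 / 10 * dist z c := by
    intro c hc z hz
    have hc' := hKr c hc
    have hz' := hKr z hz
    have hsub : ball c (r / 2) ⊆ ball a r := by
      apply ball_subset_ball'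
      rw [dist_eq_norm]
      linarith
    have hmaps : MapsTo g (ball c (r / 2)) (ball (g c) (r / 20)) := by
      intro w hw
      have h1 := hm w (by have := hsub hw; rwa [mem_ball, dist_eq_norm] at this)
      have h2 := hm c (by linarith)
      rw [mem_ball, dist_eq_norm]
      have h3 : ‖g w - g c‖ ≤ ‖g w - a‖ + ‖g c - a‖ := by
        have : g w - g c = (g w - a) - (g c - a) := by ring
        rw [this]
        exact norm_sub_le _ _
      linarith
    have hzc : z ∈ ball c (r / 2) := by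
      rw [mem_ball, dist_eq_norm]
      have h3 : ‖z - c‖ ≤ ‖z - a‖ + ‖c - a‖ := by
        have : z - c = (z - a) - (c - a) := by ring
        rw [this]
        exact norm_sub_le _ _
      linarith
    have h4 := Complex.dist_le_div_mul_dist_of_mapsTo_ball (hg.mono hsub)
      (fun w hw => ball_subset_closedBall (hmaps hw)) hzc
    have e1 : r / 20 / (r / 2) = 1 / 10 := by field_simp; norm_num
    rwa [e1] at h4
  have hmK : MapsTo g K K := by
    intro w hw
    rw [hK, mem_closedBall, dist_eq_norm]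
    have := hKr w hw
    exact hm w (by linarith)
  have hcontr : ContractingWith (1 / 10) (hmK.restrict g K K) := by
    constructor
    · rw [← NNReal.coe_lt_coe]; norm_num
    · apply LipschitzWith.of_dist_le_mul
      intro x y
      have h5 := hlip y.1 y.2 x.1 x.2
      rw [Subtype.dist_eq, Subtype.dist_eq]
      simpa using h5
  have haK : a ∈ K := by
    rw [hK]
    exact mem_closedBall_self (by linarith)
  obtain ⟨z, hzK, hfix, -, -⟩ := hcontr.exists_fixedPoint' (isClosed_closedBall.isComplete) hmK haK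
    (edist_ne_top _ _)
  have hgz : g z = z := hfix
  refine ⟨z, by have := hKr z hzK; linarith, hgz, fun w hw => ?_⟩
  have hgw : g w ∈ K := by
    rw [hK, mem_closedBall, dist_eq_norm]
    exact hm w hw
  have h6 : ∀ n : ℕ, g^[n] (g w) ∈ K ∧ dist (g^[n] (g w)) z ≤ (1 / 10) ^ n * dist (g w) z := by
    intro n
    induction n with
    | zero => exact ⟨by simpa using hgw, by simp⟩
    | succ n ih =>
      rw [Function.iterate_succ_apply']
      refine ⟨hmK ih.1, ?_⟩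
      have h7 := hlip z hzK _ ih.1
      rw [hgz] at h7
      calc dist (g (g^[n] (g w))) z ≤ 1 / 10 * dist (g^[n] (g w)) z := h7
        _ ≤ 1 / 10 * ((1 / 10) ^ n * dist (g w) z) := by gcongr; exact ih.2
        _ = (1 / 10) ^ (n + 1) * dist (g w) z := by ring
  rw [← tendsto_add_atTop_iff_nat 1, tendsto_iff_dist_tendsto_zero]
  have h8 : Tendsto (fun n : ℕ => (1 / 10 : ℝ) ^ n * dist (g w) z) atTop (𝓝 0) := by
    have := (tendsto_pow_atTop_nhds_zero_of_lt_one (by norm_num : (0 : ℝ) ≤ 1 / 10)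
      (by norm_num)).mul_const (dist (g w) z)
    rwa [zero_mul] at this
  refine squeeze_zero (fun n => dist_nonneg) (fun n => ?_) h8
  rw [Function.iterate_succ_apply]
  exact (h6 n).2

/-- pull back of an attracting cycle -/
lemma pull {X : Type*} [TopologicalSpace X] {f : X → X} (hf : Continuous f) {z : X} {n : ℕ}
    (hn : 0 < n) (hz : f^[n] z = z) {W : Set X} (hW : IsOpen W) (hzW : z ∈ W)
    (hatt : ∀ w ∈ W, Tendsto (fun k : ℕ => f^[n * k] w) atTop (𝓝 z)) {c : X} {M : ℕ}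
    (hc : f^[M] c ∈ W) : ∃ z' : X, f^[n] z' = z' ∧
      (∃ U ∈ 𝓝 z', ∀ w ∈ U, Tendsto (fun k : ℕ => f^[n * k] w) atTop (𝓝 z')) ∧
      Tendsto (fun k : ℕ => f^[n * k] c) atTop (𝓝 z') := by
  obtain ⟨r, hr⟩ : ∃ r, r + M = n * M := by
    refine ⟨n * M - M, Nat.sub_add_cancel ?_⟩
    exact Nat.le_mul_of_pos_left M hn
  have key : ∀ w : X, f^[M] w ∈ W → Tendsto (fun k : ℕ => f^[n * k] w) atTop (𝓝 (f^[r] z)) := by
    intro w hw
    rw [← tendsto_add_atTop_iff_nat M]
    have e1 : ∀ k : ℕ, f^[n * (k + M)] w = f^[r] (f^[n * k] (f^[M] w)) := by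
      intro k
      rw [← Function.iterate_add_apply, ← Function.iterate_add_apply]
      congr 2
      rw [mul_add, ← hr]
      ring
    simp only [e1]
    exact ((hf.iterate r).tendsto z).comp (hatt _ hw)
  have hzM : f^[M] (f^[r] z) = z := by
    rw [← Function.iterate_add_apply, add_comm M r, hr, Function.iterate_mul]
    exact Function.iterate_fixed hz M
  refine ⟨f^[r] z, ?_, ⟨(f^[M]) ⁻¹' W, ?_, fun w hw => key w hw⟩, key c hc⟩
  · rw [← Function.iterate_add_apply, add_comm, Function.iterate_add_apply, hz]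
  · apply (hW.preimage (hf.iterate M)).mem_nhds
    rw [mem_preimage, hzM]
    exact hzW

lemma iter_coe {f : OnePoint ℂ → OnePoint ℂ} {g : ℂ → ℂ}
    (hf : ∀ z : ℂ, z ≠ 0 → f (z : OnePoint ℂ) = ((g z : ℂ) : OnePoint ℂ)) {c : ℂ} (m : ℕ)
    (h : ∀ k < m, g^[k] c ≠ 0) : f^[m] (c : OnePoint ℂ) = ((g^[m] c : ℂ) : OnePoint ℂ) := by
  induction m with
  | zero => rfl
  | succ m ih =>
    rw [Function.iterate_succ_apply', Function.iterate_succ_apply', ih fun k hk => h k (by omega),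
      hf _ (h m (by omega))]

/-- where the sphere map is not locally injective, the derivative vanishes -/
lemma deriv_zero {f : OnePoint ℂ → OnePoint ℂ} {g : ℂ → ℂ} {z : ℂ} (hg : AnalyticAt ℂ g z)
    (hf : ∀ᶠ w : ℂ in 𝓝 z, f (w : OnePoint ℂ) = ((g w : ℂ) : OnePoint ℂ))
    (h : ¬ ∃ U ∈ 𝓝 (z : OnePoint ℂ), InjOn f U) : deriv g z = 0 := by
  by_contra hd
  apply h
  have h1 : HasStrictDerivAt g (deriv g z) z := hg.hasStrictDerivAt
  have h2 := h1.hasStrictFDerivAt_equiv hd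
  set Φ := h2.toOpenPartialHomeomorph g with hΦ
  have h3 : Φ.source ∈ 𝓝 z := Φ.open_source.mem_nhds h2.mem_toOpenPartialHomeomorph_source
  have hinj : InjOn g Φ.source := Φ.injOn
  refine ⟨(fun w : ℂ => (w : OnePoint ℂ)) '' (Φ.source ∩ {w : ℂ | f (w : OnePoint ℂ) =
    ((g w : ℂ) : OnePoint ℂ)}), ?_, ?_⟩
  · exact OnePoint.isOpenEmbedding_coe.isOpenMap.image_mem_nhds (inter_mem h3 hf)
  · rintro _ ⟨u, hu, rfl⟩ _ ⟨v, hv, rfl⟩ huv
    simp only at huv
    have hu2 : f (u : OnePoint ℂ) = ((g u : ℂ) : OnePoint ℂ) := hu.2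
    have hv2 : f (v : OnePoint ℂ) = ((g v : ℂ) : OnePoint ℂ) := hv.2
    rw [hu2, hv2, OnePoint.coe_eq_coe] at huv
    show (u : OnePoint ℂ) = v
    rw [hinj hu.1 hv.1 huv]

lemma tendsto_infty {u : ℕ → ℂ} (h : Tendsto (fun k => ‖u k‖) atTop atTop) :
    Tendsto (fun k => ((u k : ℂ) : OnePoint ℂ)) atTop (𝓝 ∞) := by
  have h1 : Tendsto u atTop (Bornology.cobounded ℂ) := tendsto_norm_atTop_iff_cobounded.1 h
  rw [Metric.cobounded_eq_cocompact, ← coclosedCompact_eq_cocompact] at h1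
  exact OnePoint.tendsto_coe_infty.comp h1

variable {ι : Type*} [Fintype ι] [Nonempty ι] {e : ι → ℤ}

lemma hasDerivAt_G (a : ι → ℂ) {z : ℂ} (hz : z ≠ 0) :
    HasDerivAt (G e a) (∑ k, a k * ((e k : ℂ) * z ^ (e k - 1))) z := by
  unfold G
  have h : ∀ k ∈ (Finset.univ : Finset ι), HasDerivAt (fun z : ℂ => a k * z ^ (e k))
      (a k * ((e k : ℂ) * z ^ (e k - 1))) z :=
    fun k _ => (hasDerivAt_zpow (e k) z (Or.inl hz)).const_mul (a k)
  exact HasDerivAt.fun_sum h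

lemma crit_sum {a : ι → ℂ} {z : ℂ} (hz : z ≠ 0) (h : deriv (G e a) z = 0) :
    ∑ k, (e k : ℂ) * (a k * z ^ (e k)) = 0 := by
  rw [(hasDerivAt_G (e := e) a hz).deriv] at h
  have h2 : ∑ k, (e k : ℂ) * (a k * z ^ (e k)) = z * ∑ k, a k * ((e k : ℂ) * z ^ (e k - 1)) := by
    rw [Finset.mul_sum]
    refine Finset.sum_congr rfl fun k _ => ?_
    have : z ^ (e k) = z ^ (e k - 1) * z := by
      rw [← zpow_add_one₀ hz]; congr 1; ring
    rw [this]
    ring
  rw [h2, h, mul_zero]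

lemma differentiableAt_G (a : ι → ℂ) {z : ℂ} (hz : z ≠ 0) : DifferentiableAt ℂ (G e a) z :=
  (hasDerivAt_G (e := e) a hz).differentiableAt

lemma analyticAt_G (a : ι → ℂ) {z : ℂ} (hz : z ≠ 0) : AnalyticAt ℂ (G e a) z := by
  have h : DifferentiableOn ℂ (G e a) {z : ℂ | z ≠ 0} := fun w hw =>
    (differentiableAt_G (e := e) a hw).differentiableWithinAt
  exact h.analyticAt (isOpen_ne.mem_nhds hz)

lemma differentiableAt_iter (a : ι → ℂ) (m : ℕ) {z : ℂ} (h : ∀ k < m, (G e a)^[k] z ≠ 0) :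
    DifferentiableAt ℂ ((G e a)^[m]) z := by
  induction m with
  | zero => exact differentiableAt_id
  | succ m ih =>
    rw [Function.iterate_succ']
    exact (differentiableAt_G (e := e) a (h m (by omega))).comp z (ih fun k hk => h k (by omega))

/-- the attracting cycle in the finite plane -/
lemma cycle {f : OnePoint ℂ → OnePoint ℂ} {a : ι → ℂ}
    (hf : ∀ z : ℂ, z ≠ 0 → f (z : OnePoint ℂ) = ((G e a z : ℂ) : OnePoint ℂ)) {N : ℕ} {i₀ : ι}
    (ha : a i₀ ≠ 0) (hret : Ret e N a i₀) :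
    ∃ z : OnePoint ℂ, f^[N + 1] z = z ∧
      z ∈ (fun w : ℂ => (w : OnePoint ℂ)) '' (ball (a i₀) (‖a i₀‖ / 2)) ∧
      ∀ w ∈ (fun w : ℂ => (w : OnePoint ℂ)) '' (ball (a i₀) (‖a i₀‖ / 2)),
        Tendsto (fun k : ℕ => f^[(N + 1) * k] w) atTop (𝓝 z) := by
  have hpos := norm_pos_iff.2 ha
  have hb : ∀ w, ‖w - a i₀‖ < ‖a i₀‖ / 2 → w ∈ ball (a i₀) (‖a i₀‖ / 2) := by
    intro w hw
    rwa [mem_ball, dist_eq_norm]
  obtain ⟨z, hz, hfix, hatt⟩ := attr (g := (G e a)^[N + 1]) (a := a i₀) (r := ‖a i₀‖ / 2)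
    (by linarith) (fun w hw => by
      rw [mem_ball, dist_eq_norm] at hw
      have h1 := (hret w hw.le).1
      exact (differentiableAt_iter (e := e) a (N + 1)
        (fun k hk => h1 k (by omega))).differentiableWithinAt)
    (fun w hw => by
      have h1 := (hret w hw.le).2
      linarith)
  have hstep : ∀ w : ℂ, ‖w - a i₀‖ < ‖a i₀‖ / 2 →
      f^[N + 1] (w : OnePoint ℂ) = (((G e a)^[N + 1] w : ℂ) : OnePoint ℂ) := by
    intro w hw
    exact iter_coe hf (N + 1) fun k hk => (hret w hw.le).1 k (by omega)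
  refine ⟨(z : OnePoint ℂ), ?_, ⟨z, hb z hz, rfl⟩, ?_⟩
  · rw [hstep z hz, hfix]
  · rintro _ ⟨w, hw, rfl⟩
    rw [mem_ball, dist_eq_norm] at hw
    have h1 : ∀ k : ℕ, ‖((G e a)^[N + 1])^[k] w - a i₀‖ < ‖a i₀‖ / 2 ∧
        f^[(N + 1) * k] (w : OnePoint ℂ) = ((((G e a)^[N + 1])^[k] w : ℂ) : OnePoint ℂ) := by
      intro k
      induction k with
      | zero => exact ⟨by simpa using hw, by simp⟩
      | succ k ih =>
        rw [Function.iterate_succ_apply']
        refine ⟨?_, ?_⟩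
        · have h2 := (hret _ ih.1.le).2
          linarith
        · rw [Function.iterate_mul, Function.iterate_succ_apply', ← Function.iterate_mul, ih.2,
            hstep _ ih.1]
    have h2 : ∀ k : ℕ, f^[(N + 1) * k] (w : OnePoint ℂ) =
      ((((G e a)^[N + 1])^[k] w : ℂ) : OnePoint ℂ) := fun k => (h1 k).2
    simp only [h2]
    exact (OnePoint.continuous_coe.tendsto z).comp (hatt w hw)

/-- the points near infinity -/
lemma near_infty {f : OnePoint ℂ → OnePoint ℂ} {a : ι → ℂ}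
    (hf : ∀ z : ℂ, z ≠ 0 → f (z : OnePoint ℂ) = ((G e a z : ℂ) : OnePoint ℂ)) {R : ℝ} (hR : 0 < R)
    (h : ∀ w, R ≤ ‖w‖ → 2 * ‖w‖ ≤ ‖G e a w‖) {w : ℂ} (hw : R ≤ ‖w‖) :
    Tendsto (fun k : ℕ => f^[k] (w : OnePoint ℂ)) atTop (𝓝 ∞) := by
  have h1 : ∀ k : ℕ, R * 2 ^ k ≤ ‖(G e a)^[k] w‖ := by
    intro k
    induction k with
    | zero => simpa using hw
    | succ k ih =>
      rw [Function.iterate_succ_apply']
      have h2 : R ≤ ‖(G e a)^[k] w‖ := by
        refine le_trans ?_ ih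
        exact le_mul_of_one_le_right hR.le (one_le_pow₀ (by norm_num))
      have h3 := h _ h2
      rw [pow_succ]
      linarith
  have h2 : ∀ k : ℕ, f^[k] (w : OnePoint ℂ) = (((G e a)^[k] w : ℂ) : OnePoint ℂ) := by
    intro k
    apply iter_coe hf
    intro j _
    rw [← norm_pos_iff]
    exact lt_of_lt_of_le (by positivity) (h1 j)
  simp only [h2]
  exact tendsto_infty (tendsto_atTop_mono h1
    ((tendsto_pow_atTop_atTop_of_one_lt (by norm_num : (1 : ℝ) < 2)).const_mul_atTop hR))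

/-- a critical point -/
def Cr (f : OnePoint ℂ → OnePoint ℂ) (c : OnePoint ℂ) : Prop := ¬ ∃ U ∈ nhds c, Set.InjOn f U

/-- the conclusion of the frozen statement -/
def HypTop (f : OnePoint ℂ → OnePoint ℂ) : Prop :=
  ∀ c : OnePoint ℂ, Cr f c →
    ∃ z : OnePoint ℂ, ∃ n : ℕ, 0 < n ∧ f^[n] z = z ∧
      (∃ U ∈ nhds z, ∀ w ∈ U, Filter.Tendsto (fun k : ℕ => f^[n * k] w) Filter.atTop (nhds z)) ∧
      Filter.Tendsto (fun k : ℕ => f^[n * k] c) Filter.atTop (nhds z)

theorem hyp_of_good (he : Function.Injective e) {f : OnePoint ℂ → OnePoint ℂ} (hfc : Continuous f)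
    {a : ι → ℂ}
    (hf : ∀ z : ℂ, z ≠ 0 → f (z : OnePoint ℂ) = ((G e a z : ℂ) : OnePoint ℂ)) (hinf : f ∞ = ∞)
    (h0 : f ((0 : ℂ) : OnePoint ℂ) = ∞) {N : ℕ} (hgood : Good e N a) :
    HypTop f ∧ ∃ z : OnePoint ℂ, f^[N + 1] z = z ∧
      (∃ U ∈ nhds z, ∀ w ∈ U, Tendsto (fun k : ℕ => f^[(N + 1) * k] w) atTop (𝓝 z)) ∧
      ∀ c : OnePoint ℂ, Cr f c → Tendsto (fun k : ℕ => f^[k] c) atTop (𝓝 ∞) ∨
        ∃ j : ℕ, Tendsto (fun k : ℕ => f^[(N + 1) * k + j] c) atTop (𝓝 z) := by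
  obtain ⟨R, hR, hesc, hcrit⟩ := hgood
  -- infinity
  have hiter : ∀ k : ℕ, f^[k] ∞ = ∞ := fun k => Function.iterate_fixed hinf k
  have hUinf : ∀ w ∈ {w : OnePoint ℂ | w = ∞ ∨ ∃ z : ℂ, w = (z : OnePoint ℂ) ∧ R < ‖z‖},
      Tendsto (fun k : ℕ => f^[k] w) atTop (𝓝 ∞) := by
    rintro w (rfl | ⟨z, rfl, hz⟩)
    · simp only [hiter]
      exact tendsto_const_nhds
    · exact near_infty hf hR hesc hz.le
  have hUnhds : {w : OnePoint ℂ | w = ∞ ∨ ∃ z : ℂ, w = (z : OnePoint ℂ) ∧ R < ‖z‖} ∈ 𝓝 ∞ := by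
    have h1 : IsOpen {w : OnePoint ℂ | w = ∞ ∨ ∃ z : ℂ, w = (z : OnePoint ℂ) ∧ R < ‖z‖} := by
      have h2 : {w : OnePoint ℂ | w = ∞ ∨ ∃ z : ℂ, w = (z : OnePoint ℂ) ∧ R < ‖z‖} =
          ((fun z : ℂ => (z : OnePoint ℂ)) '' (closedBall 0 R))ᶜ := by
        ext w
        induction w using OnePoint.rec with
        | infty => simp
        | coe z => simp
      rw [h2]
      exact OnePoint.isOpen_compl_image_coe.2 ⟨isClosed_closedBall, isCompact_closedBall _ _⟩
    exact h1.mem_nhds (Or.inl rfl)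
  have hattinf : ∀ c : OnePoint ℂ, Tendsto (fun k : ℕ => f^[k] c) atTop (𝓝 ∞) →
      ∃ z : OnePoint ℂ, ∃ n : ℕ, 0 < n ∧ f^[n] z = z ∧
      (∃ U ∈ nhds z, ∀ w ∈ U, Filter.Tendsto (fun k : ℕ => f^[n * k] w) Filter.atTop (nhds z)) ∧
      Filter.Tendsto (fun k : ℕ => f^[n * k] c) Filter.atTop (nhds z) := by
    intro c hc
    refine ⟨∞, 1, one_pos, hiter 1, ⟨_, hUnhds, ?_⟩, ?_⟩
    · simpa only [one_mul] using hUinf
    · simpa only [one_mul] using hc
  -- the alternatives for the critical points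
  have halt : ∀ c : OnePoint ℂ, Cr f c → Tendsto (fun k : ℕ => f^[k] c) atTop (𝓝 ∞) ∨
      ∃ i₀, e i₀ = 0 ∧ a i₀ ≠ 0 ∧ Ret e N a i₀ ∧ ∃ m : ℕ,
        f^[m] c ∈ (fun w : ℂ => (w : OnePoint ℂ)) '' (ball (a i₀) (‖a i₀‖ / 2)) := by
    intro c hc
    induction c using OnePoint.rec with
    | infty =>
      left
      simp only [hiter]
      exact tendsto_const_nhds
    | coe c =>
      by_cases hc0 : c = 0
      · left
        subst hc0
        rw [← tendsto_add_atTop_iff_nat 1]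
        simp only [Function.iterate_succ_apply, h0, hiter]
        exact tendsto_const_nhds
      · have hev : ∀ᶠ w : ℂ in 𝓝 c, f (w : OnePoint ℂ) = ((G e a w : ℂ) : OnePoint ℂ) := by
          filter_upwards [isOpen_ne.mem_nhds hc0] with w hw
          exact hf w hw
        have hd := deriv_zero (analyticAt_G (e := e) a hc0) hev hc
        rcases hcrit c hc0 (crit_sum hc0 hd) with ⟨m, hm, hlarge⟩ | ⟨i₀, hi₀, ha0, hret, m, hm, hb⟩
        · left
          rw [← tendsto_add_atTop_iff_nat m]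
          simp only [Function.iterate_add_apply _ _ m, iter_coe hf m hm]
          exact near_infty hf hR hesc hlarge
        · right
          refine ⟨i₀, hi₀, ha0, hret, m, ?_⟩
          rw [iter_coe hf m hm]
          exact ⟨_, by rwa [mem_ball, dist_eq_norm], rfl⟩
  have hopen : ∀ i₀, IsOpen ((fun w : ℂ => (w : OnePoint ℂ)) '' (ball (a i₀) (‖a i₀‖ / 2))) :=
    fun i₀ => OnePoint.isOpenEmbedding_coe.isOpenMap _ isOpen_ball
  constructor
  · intro c hc
    rcases halt c hc with h | ⟨i₀, hi₀, ha0, hret, m, hm⟩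
    · exact hattinf c h
    · obtain ⟨z, hz, hzW, hatt⟩ := cycle hf ha0 hret
      obtain ⟨z', h1, h2, h3⟩ := pull hfc (Nat.succ_pos N) hz (hopen i₀) hzW hatt hm
      exact ⟨z', N + 1, Nat.succ_pos N, h1, h2, h3⟩
  · by_cases hex : ∃ i₀, e i₀ = 0 ∧ a i₀ ≠ 0 ∧ Ret e N a i₀
    · obtain ⟨i₀, hi₀, ha0, hret⟩ := hex
      obtain ⟨z, hz, hzW, hatt⟩ := cycle hf ha0 hret
      refine ⟨z, hz, ⟨_, (hopen i₀).mem_nhds hzW, hatt⟩, fun c hc => ?_⟩
      rcases halt c hc with h | ⟨i₁, hi₁, -, -, m, hm⟩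
      · exact Or.inl h
      · right
        refine ⟨m, ?_⟩
        have : i₁ = i₀ := he (hi₁.trans hi₀.symm)
        subst this
        simp only [Function.iterate_add_apply _ _ m]
        exact hatt _ hm
    · refine ⟨∞, hiter _, ⟨_, hUnhds, fun w hw => ?_⟩, fun c hc => ?_⟩
      · have h1 : Tendsto (fun k : ℕ => (N + 1) * k) atTop atTop :=
          tendsto_id.const_mul_atTop' (Nat.succ_pos N)
        exact (hUinf w hw).comp h1
      · rcases halt c hc with h | ⟨i₁, hi₁, ha1, hret, -⟩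
        · exact Or.inl h
        · exact absurd ⟨i₁, hi₁, ha1, hret⟩ hex

end Pool.Agent.K3h63.LT
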