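import Mathlib
import Pool.Agent.K3h63.LT.Sph
import Pool.Agent.H790R3.RB.TPQ
import Pool.Agent.H790R3.RB.TSP

/-!
# Laurent polynomials as rational maps of the sphere; measurability of the tame set
-/

set_option autoImplicit false

open Filter Topology Set Metric Polynomial MeasureTheory
open scoped OnePoint

set_option linter.unusedSectionVars false

namespace Pool.Agent.K3h63.LT

open Pool.Agent.H790R3.RB

variable {ι : Type*} [Fintype ι] [Nonempty ι] {e : ι → ℤ}

/-- the numerator of the Laurent polynomial, the denominator being `X ^ m` -/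
noncomputable def num (e : ι → ℤ) (m : ℕ) (a : ι → ℂ) : ℂ[X] :=
  ∑ i, C (a i) * X ^ (e i + (m : ℤ)).toNat

lemma num_eval {m : ℕ} (hm : ∀ i, -(m : ℤ) ≤ e i) (a : ι → ℂ) {z : ℂ} (hz : z ≠ 0) :
    (num e m a).eval z / (X ^ m : ℂ[X]).eval z = G e a z := by
  have hzm : z ^ m ≠ 0 := pow_ne_zero _ hz
  rw [num, G, eval_finsetSum, eval_pow, eval_X, Finset.sum_div]
  refine Finset.sum_congr rfl fun i _ => ?_
  rw [eval_mul, eval_C, eval_pow, eval_X, mul_div_assoc]
  congr 1
  rw [div_eq_iff hzm, ← zpow_natCast, ← zpow_natCast, ← zpow_add₀ hz]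
  congr 1
  have := hm i
  omega

lemma num_coeff {m : ℕ} (hm : ∀ i, -(m : ℤ) ≤ e i) (he : Function.Injective e) (a : ι → ℂ)
    (j : ι) : (num e m a).coeff (e j + (m : ℤ)).toNat = a j := by
  classical
  rw [num, finsetSum_coeff, Finset.sum_eq_single j]
  · rw [coeff_C_mul, coeff_X_pow, if_pos rfl, mul_one]
  · intro k _ hk
    rw [coeff_C_mul, coeff_X_pow, if_neg, mul_zero]
    intro h
    apply hk
    apply he
    have h1 := hm k
    have h2 := hm j
    omega
  · intro h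
    exact absurd (Finset.mem_univ j) h

lemma num_natDegree {m : ℕ} (hm : ∀ i, -(m : ℤ) ≤ e i) (he : Function.Injective e) {d : ι}
    (hmax : ∀ k, k ≠ d → e k < e d) {a : ι → ℂ} (ha : a d ≠ 0) :
    (num e m a).natDegree = (e d + (m : ℤ)).toNat := by
  apply natDegree_eq_of_le_of_coeff_ne_zero
  · apply natDegree_sum_le_of_forall_le
    intro k _
    refine (natDegree_C_mul_X_pow_le _ _).trans ?_
    have h1 : e k ≤ e d := by
      by_cases h : k = d
      · rw [h]
      · exact (hmax k h).le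
    omega
  · rw [num_coeff hm he]
    exact ha

lemma coprime {m : ℕ} (hm : ∀ i, -(m : ℤ) ≤ e i) (he : Function.Injective e) {l : ι}
    (hl : e l = -(m : ℤ)) {a : ι → ℂ} (ha : a l ≠ 0) : IsCoprime (num e m a) (X ^ m : ℂ[X]) := by
  rw [isCoprime_iff_aeval_ne_zero_of_isAlgClosed ℂ ℂ]
  intro z
  rw [coe_aeval_eq_eval]
  by_cases hz : z = 0
  · left
    subst hz
    rw [← coeff_zero_eq_eval_zero]
    have h1 := num_coeff hm he a l
    rw [hl] at h1
    simp only [neg_add_cancel, Int.toNat_zero] at h1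
    rw [h1]
    exact ha
  · right
    rw [eval_pow, eval_X]
    exact pow_ne_zero _ hz

/-- the sphere map of a Laurent polynomial -/
lemma exists_map {m : ℕ} (hm1 : 1 ≤ m) (hm : ∀ i, -(m : ℤ) ≤ e i) (he : Function.Injective e)
    {d l : ι} (hd : 1 ≤ e d) (hmax : ∀ k, k ≠ d → e k < e d) (hl : e l = -(m : ℤ)) {a : ι → ℂ}
    (had : a d ≠ 0) (hal : a l ≠ 0) :
    ∃ f : OnePoint ℂ → OnePoint ℂ, Continuous f ∧
      (∀ z : ℂ, (X ^ m : ℂ[X]).eval z ≠ 0 → f (z : OnePoint ℂ) =
        (((num e m a).eval z / (X ^ m : ℂ[X]).eval z : ℂ) : OnePoint ℂ)) ∧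
      (∀ z : ℂ, z ≠ 0 → f (z : OnePoint ℂ) = ((G e a z : ℂ) : OnePoint ℂ)) ∧ f ∞ = ∞ ∧
      f ((0 : ℂ) : OnePoint ℂ) = ∞ := by
  have hco := coprime (a := a) hm he hl hal
  have hdeg := num_natDegree (a := a) hm he hmax had
  have hdm : (e d + (m : ℤ)).toNat = m + (e d).toNat := by omega
  have hD : max (num e m a).natDegree (X ^ m : ℂ[X]).natDegree = m + (e d).toNat := by
    rw [hdeg, natDegree_X_pow, hdm]
    omega
  obtain ⟨x, hx, hx0, hx1, -⟩ := (Pool.Agent.H790R3.RB.PQ SP _ (by omega)).2 _ _ hco hD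
  have hev : ∀ z : ℂ, (X ^ m : ℂ[X]).eval z ≠ 0 → sp x (z : OnePoint ℂ) =
        (((num e m a).eval z / (X ^ m : ℂ[X]).eval z : ℂ) : OnePoint ℂ) := by
    intro z hz
    rw [PQ.sp_eval x z (by rw [hx1]; exact hz), hx0, hx1]
  refine ⟨sp x, SP.sp_cont hx, hev, ?_, ?_, ?_⟩
  · intro z hz
    rw [hev z (by rw [eval_pow, eval_X]; exact pow_ne_zero _ hz), num_eval hm a hz]
  · unfold sp
    rw [SP.hc_infty, PQ.hF_inf, SP.pr_zero]
    simp only
    rw [hx1, coeff_X_pow, if_neg]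
    omega
  · unfold sp
    rw [SP.hc_coe, PQ.hF_one, SP.pr_zero]
    simp only
    rw [hx1, eval_pow, eval_X, zero_pow (by omega)]

/-! ### the tame set is measurable -/

lemma measurable_active (i : ι) :
    MeasurableSet {α : ι → ℝ | ∃ x : ℝ, F e α x = α i + (e i : ℝ) * x} := by
  have h1 : {α : ι → ℝ | ∃ x : ℝ, F e α x = α i + (e i : ℝ) * x} =
      ⋃ n : ℕ, Prod.fst '' {p : (ι → ℝ) × (Icc (-(n : ℝ)) n) |
        F e p.1 p.2 = p.1 i + (e i : ℝ) * (p.2 : ℝ)} := by
    ext α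
    simp only [Set.mem_ofPred_eq, Set.mem_iUnion, Set.mem_image, Prod.exists, exists_and_right,
      exists_eq_right, Subtype.exists]
    constructor
    · rintro ⟨x, hx⟩
      obtain ⟨n, hn⟩ := exists_nat_ge |x|
      exact ⟨n, x, abs_le.1 hn, hx⟩
    · rintro ⟨n, x, _, hx⟩
      exact ⟨x, hx⟩
  rw [h1]
  refine MeasurableSet.iUnion fun n => ?_
  apply IsClosed.measurableSet
  have : CompactSpace (Icc (-(n : ℝ)) n) := isCompact_iff_compactSpace.1 isCompact_Icc
  apply isClosedMap_fst_of_compactSpace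
  apply isClosed_eq
  · exact continuous_F.comp (continuous_fst.prodMk (continuous_subtype_val.comp continuous_snd))
  · fun_prop

lemma measurable_tame : MeasurableSet {α : ι → ℝ | Tame e α} := by
  classical
  have h1 : {α : ι → ℝ | Tame e α} =
      (⋂ i : {i : ι // e i = 1 ∨ e i = -1},
        {α : ι → ℝ | ∃ x : ℝ, F e α x = α i + (e i : ℝ) * x}ᶜ) ∩
      ⋂ p : {p : ι × ι // e p.1 = 2 ∧ e p.2 = -2},
        ({α : ι → ℝ | ∃ x : ℝ, F e α x = α p.1.1 + (e p.1.1 : ℝ) * x} ∩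
          {α : ι → ℝ | ∃ x : ℝ, F e α x = α p.1.2 + (e p.1.2 : ℝ) * x})ᶜ := by
    ext α
    simp only [Tame, Set.mem_ofPred_eq, Set.mem_inter_iff, Set.mem_iInter, Set.mem_compl_iff,
      Subtype.forall, Prod.forall]
    constructor
    · rintro ⟨h1, h2⟩
      refine ⟨?_, ?_⟩
      · rintro i hi ⟨x, hx⟩
        exact (h1 i hi x).ne' hx
      · rintro i j ⟨hi, hj⟩ h3
        exact h2 i j hi hj h3
    · rintro ⟨h1, h2⟩
      refine ⟨?_, ?_⟩
      · intro i hi x
        refine lt_of_le_of_ne (le_F α x i) fun h => ?_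
        exact h1 i hi ⟨x, h.symm⟩
      · intro i j hi hj h3
        exact h2 i j ⟨hi, hj⟩ h3
  rw [h1]
  refine MeasurableSet.inter ?_ ?_
  · exact MeasurableSet.iInter fun i => (measurable_active (i : ι)).compl
  · exact MeasurableSet.iInter fun p =>
      ((measurable_active p.1.1).inter (measurable_active p.1.2)).compl

end Pool.Agent.K3h63.LT
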